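import Mathlib

set_option autoImplicit false

/-!
# Dirichlet polynomials that are products over primes of powers of geometric sums
-/

namespace Pool.Agent.J4.H50.Kr

open Finset Complex Polynomial

/-- the sum over the divisors of a product of prime powers of a product of functions of the exponents -/
lemma sum_div {M : Type*} [CommSemiring M] (P : Finset ℕ) (hP : ∀ p ∈ P, p.Prime) (k : ℕ → ℕ)
    (g : ℕ → ℕ → M) :
    ∑ m ∈ (∏ p ∈ P, p ^ k p).divisors, ∏ p ∈ P, g p (m.factorization p) =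
      ∏ p ∈ P, ∑ j ∈ range (k p + 1), g p j := by
  classical
  induction P using Finset.induction_on with
  | empty => simp
  | insert q P hq ih =>
    have hqp : q.Prime := hP q (mem_insert_self q P)
    have hP' : ∀ p ∈ P, p.Prime := fun p hp => hP p (mem_insert_of_mem hp)
    rw [prod_insert hq, prod_insert hq, ← ih hP']
    set D := ∏ p ∈ P, p ^ k p with hD
    have hcop1 : Nat.Coprime q D := by
      apply Nat.Coprime.prod_right
      intro p hp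
      apply Nat.Coprime.pow_right
      exact (Nat.coprime_primes hqp (hP' p hp)).2 (by rintro rfl; exact hq hp)
    have hcop : Nat.Coprime (q ^ k q) D := hcop1.pow_left _
    have hD0 : D ≠ 0 := prod_ne_zero_iff.2 fun p hp => pow_ne_zero _ (hP' p hp).ne_zero
    rw [Nat.divisors_mul, mul_def, sum_image hcop.mul_injOn_divisors, sum_product,
      Nat.divisors_prime_pow hqp, sum_map, sum_mul_sum]
    refine sum_congr rfl fun j _ => sum_congr rfl fun d hd => ?_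
    have hdD : d ∣ D := Nat.dvd_of_mem_divisors hd
    have hd0 : d ≠ 0 := ne_zero_of_dvd_ne_zero hD0 hdD
    have hqd : ¬ q ∣ d := fun h => by
      have := Nat.Coprime.eq_one_of_dvd hcop1 (h.trans hdD)
      exact hqp.one_lt.ne' this
    simp only [Function.Embedding.coeFn_mk]
    rw [prod_insert hq, Nat.factorization_mul (pow_ne_zero _ hqp.ne_zero) hd0,
      hqp.factorization_pow]
    congr 1
    · simp [Nat.factorization_eq_zero_of_not_dvd hqd]
    · refine prod_congr rfl fun p hp => ?_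
      have : p ≠ q := by rintro rfl; exact hq hp
      simp [this.symm]

lemma cpow_pow (p a : ℕ) (s : ℂ) : (((p ^ a : ℕ) : ℂ)) ^ s = ((p : ℂ) ^ s) ^ a := by
  induction a with
  | zero => simp
  | succ a ih =>
    rw [pow_succ, pow_succ, Nat.cast_mul, natCast_mul_natCast_cpow, ih]

lemma cpow_prod (P : Finset ℕ) (a : ℕ → ℕ) (s : ℂ) :
    (((∏ p ∈ P, p ^ a p : ℕ) : ℂ)) ^ s = ∏ p ∈ P, ((p : ℂ) ^ s) ^ a p := by
  classical
  induction P using Finset.induction_on with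
  | empty => simp
  | insert q P hq ih =>
    rw [prod_insert hq, prod_insert hq, Nat.cast_mul, natCast_mul_natCast_cpow, ih, cpow_pow]

lemma eq_prod (P : Finset ℕ) (hP : ∀ p ∈ P, p.Prime) (k : ℕ → ℕ) (m : ℕ)
    (hm : m ∈ (∏ p ∈ P, p ^ k p).divisors) : m = ∏ p ∈ P, p ^ m.factorization p := by
  have hD0 : ∏ p ∈ P, p ^ k p ≠ 0 :=
    prod_ne_zero_iff.2 fun p hp => pow_ne_zero _ (hP p hp).ne_zero
  have hmD := Nat.dvd_of_mem_divisors hm
  have hm0 : m ≠ 0 := ne_zero_of_dvd_ne_zero hD0 hmD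
  conv_lhs => rw [← Nat.prod_factorization_pow_eq_self hm0]
  rw [Finsupp.prod]
  apply prod_subset
  · intro p hp
    rw [Nat.support_factorization, Nat.mem_primeFactors] at hp
    obtain ⟨h1, h2, -⟩ := hp
    obtain ⟨q, hq, h3⟩ := (Prime.dvd_finsetProd_iff h1.prime _).1 (h2.trans hmD)
    have h4 := (Nat.prime_dvd_prime_iff_eq h1 (hP q hq)).1 (h1.dvd_of_dvd_pow h3)
    exact h4 ▸ hq
  · intro p _ hp
    rw [Finsupp.notMem_support_iff] at hp
    rw [hp, pow_zero]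

/-- `(1 + X + ... + X ^ (J - 1)) ^ m` -/
noncomputable def Ge (J m : ℕ) : ℂ[X] := (∑ i ∈ range J, X ^ i) ^ m

lemma Ge_deg (J m : ℕ) : (Ge J m).natDegree ≤ m * (J - 1) := by
  unfold Ge
  refine natDegree_pow_le_of_le m (natDegree_sum_le_of_forall_le _ _ fun i hi => ?_)
  rw [natDegree_X_pow]
  have := mem_range.1 hi
  omega

lemma Ge_eval (J m : ℕ) (w : ℂ) : (Ge J m).eval w = (∑ i ∈ range J, w ^ i) ^ m := by
  unfold Ge
  rw [eval_pow, eval_finsetSum]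
  simp

lemma Ge_sum (J m : ℕ) (w : ℂ) :
    ∑ j ∈ range (m * (J - 1) + 1), (Ge J m).coeff j * w ^ j = (∑ i ∈ range J, w ^ i) ^ m := by
  rw [← Ge_eval, eval_eq_sum_range' (Nat.lt_succ_of_le (Ge_deg J m))]

/-- the sum of the squares of the coefficients -/
noncomputable def nn (J m : ℕ) : ℝ := ∑ j ∈ range (m * (J - 1) + 1), ‖(Ge J m).coeff j‖ ^ 2

lemma nn_nonneg (J m : ℕ) : 0 ≤ nn J m := by unfold nn; positivity

lemma nn_one (J : ℕ) (hJ : 1 ≤ J) : nn J 1 = J := by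
  unfold nn Ge
  have h1 : 1 * (J - 1) + 1 = J := by omega
  rw [h1, pow_one]
  have h2 : ∀ j ∈ range J, ‖(∑ i ∈ range J, (X : ℂ[X]) ^ i).coeff j‖ ^ 2 = 1 := by
    intro j hj
    rw [finsetSum_coeff]
    simp only [coeff_X_pow]
    rw [sum_ite_eq (range J) j]
    simp [mem_range.1 hj]
  rw [sum_congr rfl h2]
  simp

lemma nn_ge (J m : ℕ) (hJ : 1 ≤ J) (hm : 1 ≤ m) : (J : ℝ) ^ (2 * m) ≤ (m * J : ℝ) * nn J m := by
  have h1 : (J : ℝ) ^ m ≤ ∑ j ∈ range (m * (J - 1) + 1), ‖(Ge J m).coeff j‖ := by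
    have h2 := Ge_sum J m 1
    simp only [one_pow, mul_one, sum_const, card_range, nsmul_eq_mul] at h2
    have h3 : ‖((J : ℂ)) ^ m‖ = (J : ℝ) ^ m := by rw [norm_pow, Complex.norm_natCast]
    rw [← h3, ← h2]
    exact norm_sum_le _ _
  have h4 := sq_sum_le_card_mul_sum_sq (s := range (m * (J - 1) + 1))
    (f := fun j => ‖(Ge J m).coeff j‖)
  rw [card_range] at h4
  have h5 : ((m * (J - 1) + 1 : ℕ) : ℝ) ≤ m * J := by
    obtain ⟨J', rfl⟩ : ∃ J', J = J' + 1 := ⟨J - 1, by omega⟩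
    push_cast
    have : (1 : ℝ) ≤ m := by exact_mod_cast hm
    nlinarith
  calc (J : ℝ) ^ (2 * m) = ((J : ℝ) ^ m) ^ 2 := by rw [← pow_mul, mul_comm]
    _ ≤ (∑ j ∈ range (m * (J - 1) + 1), ‖(Ge J m).coeff j‖) ^ 2 :=
      pow_le_pow_left₀ (by positivity) h1 2
    _ ≤ _ := h4
    _ ≤ (m * J : ℝ) * nn J m := mul_le_mul_of_nonneg_right h5 (nn_nonneg J m)

/-- the coefficients of `∏ (1 + w_p + ... + w_p ^ (J_p - 1)) ^ (m_p)`, `w_p = z_p p ^ (-it)` -/
noncomputable def co (P : Finset ℕ) (J m : ℕ → ℕ) (z : ℕ → ℂ) (n : ℕ) : ℂ :=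
  ∏ p ∈ P, (Ge (J p) (m p)).coeff (n.factorization p) * z p ^ n.factorization p

lemma R_eq (P : Finset ℕ) (hP : ∀ p ∈ P, p.Prime) (J m : ℕ → ℕ) (z : ℕ → ℂ) (s : ℂ) :
    ∑ n ∈ (∏ p ∈ P, p ^ (m p * (J p - 1))).divisors, co P J m z n * (n : ℂ) ^ s =
      ∏ p ∈ P, (∑ i ∈ range (J p), (z p * (p : ℂ) ^ s) ^ i) ^ m p := by
  have h1 : ∀ n ∈ (∏ p ∈ P, p ^ (m p * (J p - 1))).divisors, co P J m z n * (n : ℂ) ^ s =
      ∏ p ∈ P, ((Ge (J p) (m p)).coeff (n.factorization p) *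
        (z p * (p : ℂ) ^ s) ^ n.factorization p) := by
    intro n hn
    have h2 : (n : ℂ) ^ s = ∏ p ∈ P, ((p : ℂ) ^ s) ^ n.factorization p := by
      conv_lhs => rw [eq_prod P hP _ n hn]
      exact cpow_prod P _ s
    rw [h2, co, ← prod_mul_distrib]
    refine prod_congr rfl fun p _ => ?_
    rw [mul_pow]
    ring
  rw [sum_congr rfl h1, sum_div P hP _ (fun p j => (Ge (J p) (m p)).coeff j *
    (z p * (p : ℂ) ^ s) ^ j)]
  exact prod_congr rfl fun p _ => Ge_sum _ _ _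

lemma norm_co (P : Finset ℕ) (hP : ∀ p ∈ P, p.Prime) (J m : ℕ → ℕ) (z : ℕ → ℂ)
    (hz : ∀ p, ‖z p‖ = 1) :
    ∑ n ∈ (∏ p ∈ P, p ^ (m p * (J p - 1))).divisors, ‖co P J m z n‖ ^ 2 =
      ∏ p ∈ P, nn (J p) (m p) := by
  have h1 : ∀ n ∈ (∏ p ∈ P, p ^ (m p * (J p - 1))).divisors, ‖co P J m z n‖ ^ 2 =
      ∏ p ∈ P, ‖(Ge (J p) (m p)).coeff (n.factorization p)‖ ^ 2 := by
    intro n _
    rw [co, norm_prod, ← prod_pow]
    refine prod_congr rfl fun p _ => ?_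
    rw [norm_mul, norm_pow, hz, one_pow, mul_one]
  rw [sum_congr rfl h1, sum_div P hP _ (fun p j => ‖(Ge (J p) (m p)).coeff j‖ ^ 2)]
  rfl

/-- geometric sums at points of the unit circle at a distance from one -/
lemma geo_le (J : ℕ) (w : ℂ) (hw : ‖w‖ = 1) : ‖∑ i ∈ range J, w ^ i‖ ≤ J := by
  refine (norm_sum_le _ _).trans ?_
  simp [norm_pow, hw]

lemma geo_far (J : ℕ) (w : ℂ) (hw : ‖w‖ = 1) (e : ℝ) (he : 0 < e) (h : e ≤ ‖w - 1‖) :
    ‖∑ i ∈ range J, w ^ i‖ ≤ 2 / e := by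
  have h1 : (∑ i ∈ range J, w ^ i) * (w - 1) = w ^ J - 1 := geom_sum_mul w J
  have h2 : ‖∑ i ∈ range J, w ^ i‖ * ‖w - 1‖ ≤ 2 := by
    rw [← norm_mul, h1]
    refine (norm_sub_le _ _).trans ?_
    rw [norm_pow, hw, one_pow, norm_one]
    norm_num
  rw [le_div_iff₀ he]
  exact (mul_le_mul_of_nonneg_left h (norm_nonneg _)).trans h2

lemma geo_near (J : ℕ) (hJ : 1 ≤ J) (w : ℂ) (hw : ‖w‖ = 1) (e : ℝ) (he : e * J ≤ 1)
    (h : ‖w - 1‖ ≤ e) : (J : ℝ) / 2 ≤ ‖∑ i ∈ range J, w ^ i‖ := by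
  have h1 : ∀ i : ℕ, ‖w ^ i - 1‖ ≤ i * e := by
    intro i
    induction i with
    | zero => simp
    | succ i ih =>
      have h2 : w ^ (i + 1) - 1 = w ^ i * (w - 1) + (w ^ i - 1) := by ring
      rw [h2]
      refine (norm_add_le _ _).trans ?_
      rw [norm_mul, norm_pow, hw, one_pow, one_mul]
      push_cast
      linarith
  have h2 : ‖(∑ i ∈ range J, w ^ i) - J‖ ≤ ∑ i ∈ range J, (i : ℝ) * e := by
    have h3 : (∑ i ∈ range J, w ^ i) - (J : ℂ) = ∑ i ∈ range J, (w ^ i - 1) := by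
      rw [sum_sub_distrib]
      simp
    rw [h3]
    exact (norm_sum_le _ _).trans (sum_le_sum fun i _ => h1 i)
  have h3 : ∑ i ∈ range J, (i : ℝ) * e ≤ (J : ℝ) / 2 := by
    rw [← sum_mul]
    have h4 : (∑ i ∈ range J, (i : ℝ)) * 2 = J * (J - 1) := by
      obtain ⟨J', rfl⟩ : ∃ J', J = J' + 1 := ⟨J - 1, by omega⟩
      have := Finset.sum_range_id_mul_two (J' + 1)
      have h5 : ((∑ i ∈ range (J' + 1), i : ℕ) : ℝ) * 2 = ((J' + 1 : ℕ) : ℝ) * ((J' : ℕ) : ℝ) := by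
        exact_mod_cast this
      push_cast at h5 ⊢
      rw [h5]
      ring
    have h6 : (1 : ℝ) ≤ J := by exact_mod_cast hJ
    have h7 : 0 ≤ e := (norm_nonneg _).trans h
    nlinarith
  have h8 : (J : ℝ) = ‖(J : ℂ)‖ := (Complex.norm_natCast J).symm
  have h9 : ‖(J : ℂ)‖ ≤ ‖∑ i ∈ range J, w ^ i‖ + ‖(∑ i ∈ range J, w ^ i) - J‖ := by
    have h10 : (J : ℂ) = (∑ i ∈ range J, w ^ i) - ((∑ i ∈ range J, w ^ i) - J) := by ring
    conv_lhs => rw [h10]
    exact norm_sub_le _ _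
  linarith

end Pool.Agent.J4.H50.Kr
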