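import Mathlib

set_option autoImplicit false

/-!
# Tuples of points in the translates of a set, with weights
-/

namespace Pool.Agent.J4.H50.Kl

open MeasureTheory Finset

variable {ι : Type*}

open Classical in
/-- the number of the points `y i` in the translate `t + U`, counted with the multiplicities `μ i` -/
noncomputable def NU (X : Finset ι) (y : ι → ℝ) (μ : ι → ℕ) (U : Set ℝ) (t : ℝ) : ℕ :=
  ∑ i ∈ X.filter (fun i => y i - t ∈ U), μ i

lemma NU_eq (X : Finset ι) (y : ι → ℝ) (μ : ι → ℕ) (U : Set ℝ) (t : ℝ) :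
    (NU X y μ U t : ℝ) = ∑ i ∈ X, (μ i : ℝ) * U.indicator 1 (y i - t) := by
  classical
  unfold NU
  rw [Finset.sum_filter]
  push_cast
  refine Finset.sum_congr rfl fun i _ => ?_
  by_cases h : y i - t ∈ U
  · simp [h]
  · simp [h]

lemma NU_le (X : Finset ι) (y : ι → ℝ) (μ : ι → ℕ) (U : Set ℝ) (t : ℝ) :
    NU X y μ U t ≤ ∑ i ∈ X, μ i := by
  classical
  unfold NU
  exact Finset.sum_le_sum_of_subset (Finset.filter_subset _ _)

lemma NU_meas (X : Finset ι) (y : ι → ℝ) (μ : ι → ℕ) {U : Set ℝ} (hU : MeasurableSet U) :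
    Measurable (NU X y μ U) := by
  classical
  have h1 : Measurable fun t => (NU X y μ U t : ℝ) := by
    simp only [NU_eq]
    refine Finset.measurable_sum _ fun i _ => Measurable.const_mul ?_ _
    exact (measurable_one.indicator hU).comp (measurable_const.sub measurable_id)
  have h2 : NU X y μ U = fun t => ⌊(NU X y μ U t : ℝ)⌋₊ := by
    funext t
    rw [Nat.floor_natCast]
  rw [h2]
  exact Nat.measurable_floor.comp h1

lemma int_of_bdd {I : Set ℝ} {G : ℝ → ℝ} (hG : IntegrableOn G I) {f : ℕ → ℝ} {N : ℝ → ℕ}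
    (hN : Measurable N) (B : ℕ) (hB : ∀ t, N t ≤ B) : IntegrableOn (fun t => G t * f (N t)) I := by
  have h1 : Measurable fun t => f (N t) := (measurable_from_nat (f := f)).comp hN
  obtain ⟨C, hC⟩ : ∃ C : ℝ, ∀ n : ℕ, n ≤ B → |f n| ≤ C := by
    refine ⟨∑ n ∈ Finset.range (B + 1), |f n|, fun n hn => ?_⟩
    exact Finset.single_le_sum (f := fun n => |f n|) (fun _ _ => abs_nonneg _)
      (Finset.mem_range.2 (Nat.lt_succ_of_le hn))
  have h2 := hG.bdd_mul (c := C) (f := fun t => f (N t)) h1.aestronglyMeasurable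
    (Filter.Eventually.of_forall fun t => by
      rw [Real.norm_eq_abs]
      exact hC _ (hB t))
  exact h2.congr (Filter.Eventually.of_forall fun t => mul_comm _ _)

/-- Jensen's inequality for the descending factorial of a counting function -/
theorem jensen {I : Set ℝ} {G : ℝ → ℝ} (hG : IntegrableOn G I) (hG0 : ∀ t, 0 ≤ G t)
    {N : ℝ → ℕ} (hN : Measurable N) (B : ℕ) (hB : ∀ t, N t ≤ B) {k : ℕ} (hk : k ≠ 0) {a b : ℝ}
    (hb0 : 0 < b) (hb : ∫ t in I, G t ≤ b) (ha : a ≤ ∫ t in I, G t * (N t : ℝ))
    (hab : (k : ℝ) - 1 ≤ a / b) :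
    b * (descPochhammer ℝ k).eval (a / b) ≤ ∫ t in I, G t * ((N t).descFactorial k : ℝ) := by
  classical
  -- the weights
  set v : ℕ → ℝ := fun n => ∫ t in I, G t * (if N t = n then 1 else 0) with hv
  have hv0 : ∀ n, 0 ≤ v n := fun n => by
    refine integral_nonneg fun t => mul_nonneg (hG0 t) ?_
    split_ifs <;> norm_num
  have hexp : ∀ f : ℕ → ℝ, ∫ t in I, G t * f (N t) = ∑ n ∈ range (B + 1), v n * f n := by
    intro f
    have h1 : ∀ t, G t * f (N t) =
        ∑ n ∈ range (B + 1), G t * (if N t = n then 1 else 0) * f n := by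
      intro t
      rw [Finset.sum_eq_single (N t)]
      · simp
      · intro n _ hn
        rw [if_neg (Ne.symm hn)]
        ring
      · intro hn
        exact absurd (Finset.mem_range.2 (Nat.lt_succ_of_le (hB t))) hn
    simp only [h1]
    rw [integral_finsetSum]
    · refine Finset.sum_congr rfl fun n _ => ?_
      rw [integral_mul_const]
    · intro n _
      refine Integrable.mul_const ?_ _
      exact int_of_bdd hG (f := fun m => if m = n then 1 else 0) hN B hB
  have hsum : ∑ n ∈ range (B + 1), v n = ∫ t in I, G t := by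
    have h1 := hexp (fun _ => 1)
    simp only [mul_one] at h1
    exact h1.symm
  -- probability weights
  set w : ℕ → ℝ := fun n => (v n + if n = 0 then b - ∫ t in I, G t else 0) / b with hw
  have hw0 : ∀ n ∈ range (B + 1), 0 ≤ w n := by
    intro n _
    refine div_nonneg (add_nonneg (hv0 n) ?_) hb0.le
    split_ifs
    · linarith
    · exact le_rfl
  have h0m : 0 ∈ range (B + 1) := Finset.mem_range.2 (Nat.succ_pos B)
  have hw1 : ∑ n ∈ range (B + 1), w n = 1 := by
    rw [hw, ← Finset.sum_div, Finset.sum_add_distrib, hsum, Finset.sum_ite_eq' _ 0, if_pos h0m]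
    rw [add_sub_cancel, div_self hb0.ne']
  have hwf : ∀ f : ℕ → ℝ, f 0 = 0 → ∑ n ∈ range (B + 1), w n * f n =
      (∫ t in I, G t * f (N t)) / b := by
    intro f hf
    rw [hexp f, Finset.sum_div]
    refine Finset.sum_congr rfl fun n _ => ?_
    rw [hw]
    by_cases hn : n = 0
    · rw [hn, hf]
      simp
    · simp only [if_neg hn, add_zero]
      ring
  have h1 := hwf (fun n => (n : ℝ)) (by simp)
  have h2 := hwf (fun n => (n.descFactorial k : ℝ)) (by
    rw [Nat.descFactorial_eq_zero_iff_lt.2 (Nat.pos_of_ne_zero hk)]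
    simp)
  have h3 : a / b ≤ ∑ n ∈ range (B + 1), w n * (n : ℝ) := by
    rw [h1]
    exact div_le_div_of_nonneg_right ha hb0.le
  have h4 := descPochhammer_eval_le_sum_descFactorial hk (t := range (B + 1)) (fun n => n) w hw0
    hw1 (hab.trans h3)
  have h5 := monotoneOn_descPochhammer_eval (S := ℝ) k (a := a / b) (Set.mem_Ici.2 hab)
    (Set.mem_Ici.2 (hab.trans h3)) h3
  have h6 := h5.trans h4
  rw [h2] at h6
  rw [mul_comm]
  exact (le_div_iff₀ hb0).1 h6

lemma int_one (y : ℝ) {U I : Set ℝ} {G : ℝ → ℝ} (hU : MeasurableSet U) (hI : MeasurableSet I) :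
    ∫ t in I, G t * U.indicator 1 (y - t) = ∫ u in U, G (y - u) * I.indicator 1 (y - u) := by
  rw [← integral_indicator hI, ← integral_indicator hU,
    ← integral_sub_left_eq_self (fun t => I.indicator (fun t => G t * U.indicator 1 (y - t)) t)
      volume y]
  refine integral_congr_ae (Filter.Eventually.of_forall fun u => ?_)
  by_cases h1 : u ∈ U
  · by_cases h2 : y - u ∈ I
    · simp [h1, h2]
    · simp [h1, h2]
  · by_cases h2 : y - u ∈ I
    · simp [h1, h2]
    · simp [h1, h2]

/-- the first moment -/
theorem first_moment (X : Finset ι) (y : ι → ℝ) (μ : ι → ℕ) {U I : Set ℝ} {G : ℝ → ℝ}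
    (hU : MeasurableSet U) (hI : MeasurableSet I) (hG : IntegrableOn G I)
    (hUf : volume U ≠ ⊤) {a : ℝ}
    (ha : ∀ u ∈ U, a ≤ ∑ i ∈ X, (μ i : ℝ) * (G (y i - u) * I.indicator 1 (y i - u))) :
    a * (volume U).toReal ≤ ∫ t in I, G t * (NU X y μ U t : ℝ) := by
  have hint : ∀ i ∈ X, IntegrableOn (fun t => G t * U.indicator 1 (y i - t)) I := by
    intro i _
    have h2 := hG.bdd_mul (c := 1) (f := fun t => U.indicator (1 : ℝ → ℝ) (y i - t))
      ((measurable_one.indicator hU).comp (measurable_const.sub measurable_id)).aestronglyMeasurable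
      (Filter.Eventually.of_forall fun t => by
        by_cases h : y i - t ∈ U <;> simp [h])
    exact h2.congr (Filter.Eventually.of_forall fun t => mul_comm _ _)
  have hint2 : ∀ i ∈ X, IntegrableOn (fun u => G (y i - u) * I.indicator 1 (y i - u)) U := by
    intro i _
    have h3 : Integrable (fun t => I.indicator G t) := (integrable_indicator_iff hI).2 hG
    have h4 : Integrable (fun u => I.indicator G (y i - u)) := h3.comp_sub_left (y i)
    refine h4.integrableOn.congr (Filter.Eventually.of_forall fun u => ?_)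
    by_cases h : y i - u ∈ I <;> simp [h]
  have h1 : ∫ t in I, G t * (NU X y μ U t : ℝ) =
      ∫ u in U, ∑ i ∈ X, (μ i : ℝ) * (G (y i - u) * I.indicator 1 (y i - u)) := by
    rw [integral_finsetSum]
    · simp only [NU_eq, Finset.mul_sum]
      rw [integral_finsetSum]
      · refine Finset.sum_congr rfl fun i _ => ?_
        rw [integral_const_mul, ← int_one (y i) hU hI, ← integral_const_mul]
        exact integral_congr_ae (Filter.Eventually.of_forall fun t => by ring)
      · intro i hi
        refine ((hint i hi).const_mul (μ i : ℝ)).congr (Filter.Eventually.of_forall fun t => ?_)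
        ring
    · intro i hi
      exact (hint2 i hi).const_mul _
  rw [h1]
  have h5 : ∫ _u in U, a = a * (volume U).toReal := by
    rw [setIntegral_const, smul_eq_mul, mul_comm]
    rfl
  rw [← h5]
  refine setIntegral_mono_on ?_ ?_ hU ha
  · exact integrableOn_const hUf
  · exact integrable_finsetSum _ fun i hi => (hint2 i hi).const_mul _

/-- the number of tuples -/
theorem tuples [DecidableEq ι] (X : Finset ι) (y : ι → ℝ) {U I : Set ℝ} {G : ℝ → ℝ}
    (hU : MeasurableSet U) (hI : MeasurableSet I) (hG : IntegrableOn G I) (hG0 : ∀ t, 0 ≤ G t)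
    (hUf : volume U ≠ ⊤) {k : ℕ} (hk : k ≠ 0) {M : ℝ} (hM : ∀ t, G t ≤ M)
    (E : Set (Fin k → ι)) (hE : E.Finite)
    (hmem : ∀ x : Fin k → ι, Function.Injective x → (∀ j, x j ∈ X) →
      ∀ t ∈ I, G t ≠ 0 → (∀ j, y (x j) - t ∈ U) → x ∈ E) :
    ∫ t in I, G t * ((NU X y (fun _ => 1) U t).descFactorial k : ℝ) ≤
      E.ncard * (M * (volume U).toReal) := by
  classical
  set A : Finset (Fin k → ι) := hE.toFinset with hA
  have hM0 : 0 ≤ M := (hG0 0).trans (hM 0)
  -- the function of a tuple
  set φ : (Fin k → ι) → ℝ → ℝ := fun x t => if ∀ j, y (x j) - t ∈ U then 1 else 0 with hφ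
  obtain ⟨j0⟩ : Nonempty (Fin k) := ⟨⟨0, Nat.pos_of_ne_zero hk⟩⟩
  have hφm : ∀ x, Measurable (φ x) := by
    intro x
    refine Measurable.ite ?_ measurable_const measurable_const
    have : {t : ℝ | ∀ j, y (x j) - t ∈ U} = ⋂ j, (fun t => y (x j) - t) ⁻¹' U := by
      ext t
      simp
    rw [this]
    exact MeasurableSet.iInter fun j => (measurable_const.sub measurable_id) hU
  have hφint : ∀ x, IntegrableOn (fun t => G t * φ x t) I := by
    intro x
    have h2 := hG.bdd_mul (c := 1) (f := φ x) (hφm x).aestronglyMeasurable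
      (Filter.Eventually.of_forall fun t => by
        simp only [hφ]
        split_ifs <;> simp)
    exact h2.congr (Filter.Eventually.of_forall fun t => mul_comm _ _)
  have hpt : ∀ t ∈ I, G t * ((NU X y (fun _ => 1) U t).descFactorial k : ℝ) ≤
      ∑ x ∈ A, G t * φ x t := by
    intro t ht
    by_cases hGt : G t = 0
    · rw [hGt]
      simp
    rw [← Finset.mul_sum]
    refine mul_le_mul_of_nonneg_left ?_ (hG0 t)
    set S : Finset ι := X.filter (fun i => y i - t ∈ U) with hS
    have hN : NU X y (fun _ => 1) U t = S.card := by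
      unfold NU
      rw [← Finset.card_eq_sum_ones]
    have hcard : (S.card).descFactorial k = Fintype.card (Fin k ↪ S) := by
      rw [Fintype.card_embedding_eq]
      simp
    rw [hN, hcard]
    have h1 : ∑ x ∈ A, φ x t = ((A.filter fun x => ∀ j, y (x j) - t ∈ U).card : ℝ) := by
      simp only [hφ]
      rw [Finset.sum_boole]
    rw [h1]
    have h2 : Fintype.card (Fin k ↪ S) ≤ (A.filter fun x => ∀ j, y (x j) - t ∈ U).card := by
      rw [← Finset.card_univ]
      refine Finset.card_le_card_of_injOn (fun f j => (f j : ι)) ?_ ?_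
      · intro f _
        have hf : ∀ j, (f j : ι) ∈ X ∧ y (f j : ι) - t ∈ U := fun j =>
          Finset.mem_filter.1 (f j).2
        rw [Finset.mem_coe, Finset.mem_filter, hA, Set.Finite.mem_toFinset]
        refine ⟨hmem _ ?_ (fun j => (hf j).1) t ht hGt fun j => (hf j).2, fun j => (hf j).2⟩
        exact Subtype.val_injective.comp f.injective
      · intro f _ g _ hfg
        ext j
        exact congrFun hfg j
    exact_mod_cast h2
  have hsmall : ∀ x, ∫ t in I, G t * φ x t ≤ M * (volume U).toReal := by
    intro x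
    have hV : volume ((fun t => y (x j0) - t) ⁻¹' U) = volume U := by
      exact (Measure.measurePreserving_sub_left volume (y (x j0))).measure_preimage
        hU.nullMeasurableSet
    have hle : ∀ t, G t * φ x t ≤ ((fun t => y (x j0) - t) ⁻¹' U).indicator (fun _ => M) t := by
      intro t
      by_cases h : y (x j0) - t ∈ U
      · rw [Set.indicator_of_mem (by exact h)]
        refine le_trans (mul_le_mul_of_nonneg_left ?_ (hG0 t)) ((mul_one _).le.trans (hM t))
        simp only [hφ]
        split_ifs <;> norm_num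
      · rw [Set.indicator_of_notMem (by exact h)]
        have : φ x t = 0 := by
          simp only [hφ]
          rw [if_neg fun hc => h (hc j0)]
        rw [this, mul_zero]
    have hmU : MeasurableSet ((fun t => y (x j0) - t) ⁻¹' U) :=
      (measurable_const.sub measurable_id) hU
    have hint : Integrable (((fun t => y (x j0) - t) ⁻¹' U).indicator fun _ => M) := by
      rw [integrable_indicator_iff hmU]
      exact integrableOn_const (by rw [hV]; exact hUf)
    calc ∫ t in I, G t * φ x t ≤ ∫ t in I, ((fun t => y (x j0) - t) ⁻¹' U).indicator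
          (fun _ => M) t := integral_mono (hφint x) hint.integrableOn hle
      _ ≤ ∫ t, ((fun t => y (x j0) - t) ⁻¹' U).indicator (fun _ => M) t := by
          refine setIntegral_le_integral hint (Filter.Eventually.of_forall fun t => ?_)
          exact Set.indicator_nonneg (fun _ _ => hM0) t
      _ = M * (volume U).toReal := by
          rw [integral_indicator hmU, setIntegral_const, smul_eq_mul, mul_comm, Measure.real, hV]
  have hNint : IntegrableOn (fun t => G t * ((NU X y (fun _ => 1) U t).descFactorial k : ℝ)) I :=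
    int_of_bdd hG (f := fun n => (n.descFactorial k : ℝ)) (NU_meas X y _ hU) _ (NU_le X y _ U)
  calc ∫ t in I, G t * ((NU X y (fun _ => 1) U t).descFactorial k : ℝ) ≤
      ∫ t in I, ∑ x ∈ A, G t * φ x t :=
        setIntegral_mono_on hNint (integrable_finsetSum _ fun x _ => hφint x) hI hpt
    _ = ∑ x ∈ A, ∫ t in I, G t * φ x t := integral_finsetSum _ fun x _ => hφint x
    _ ≤ ∑ _x ∈ A, M * (volume U).toReal := Finset.sum_le_sum fun x _ => hsmall x
    _ = E.ncard * (M * (volume U).toReal) := by
      rw [Finset.sum_const, nsmul_eq_mul, hA, Set.ncard_eq_toFinset_card _ hE]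

end Pool.Agent.J4.H50.Kl
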