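import Mathlib

set_option autoImplicit false

/-!
# The mean square of a short Dirichlet polynomial
-/

namespace Pool.Agent.J4.H50.Kl

open MeasureTheory Finset Complex

lemma log_gap {N : ℝ} {m n : ℕ} (hm : 1 ≤ m) (hmN : (m : ℝ) ≤ N) (hn : 1 ≤ n) (hnN : (n : ℝ) ≤ N)
    (h : m ≠ n) : 1 / N ≤ |Real.log n - Real.log m| := by
  wlog hlt : m < n generalizing m n
  · rw [abs_sub_comm]
    exact this hn hnN hm hmN h.symm (lt_of_le_of_ne (not_lt.1 hlt) h.symm)
  have hm0 : (0 : ℝ) < m := by exact_mod_cast hm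
  have hn0 : (0 : ℝ) < n := by exact_mod_cast hn
  have h1 : (m : ℝ) + 1 ≤ n := by exact_mod_cast hlt
  have h2 : Real.log m - Real.log n ≤ (m : ℝ) / n - 1 := by
    rw [← Real.log_div hm0.ne' hn0.ne']
    exact Real.log_le_sub_one_of_pos (by positivity)
  have h3 : 1 / N ≤ 1 / (n : ℝ) := one_div_le_one_div_of_le hn0 hnN
  have h4 : 1 / (n : ℝ) ≤ 1 - (m : ℝ) / n := by
    rw [le_sub_iff_add_le, ← add_div, div_le_one hn0]
    linarith
  rw [abs_of_nonneg (by
    rw [sub_nonneg]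
    exact Real.log_le_log hm0 (by linarith))]
  linarith

lemma int_exp {θ : ℝ} (hθ : θ ≠ 0) (a b : ℝ) :
    ‖∫ t in a..b, cexp (I * θ * t)‖ ≤ 2 / |θ| := by
  have h0 : I * (θ : ℂ) ≠ 0 := mul_ne_zero I_ne_zero (by exact_mod_cast hθ)
  rw [integral_exp_mul_complex h0, norm_div, norm_mul, norm_I, one_mul, Complex.norm_real,
    Real.norm_eq_abs]
  refine div_le_div_of_nonneg_right ?_ (abs_nonneg _)
  refine (norm_sub_le _ _).trans ?_
  have h1 : ∀ t : ℝ, ‖cexp (I * θ * t)‖ = 1 := by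
    intro t
    rw [Complex.norm_exp]
    simp
  rw [h1, h1]
  norm_num

/-- the mean square of a Dirichlet polynomial -/
theorem mean_sq (S : Finset ℕ) (r : ℕ → ℂ) {N : ℝ} (hS : ∀ n ∈ S, 1 ≤ n ∧ (n : ℝ) ≤ N) (T : ℝ)
    {K : ℝ} (_hK : 0 ≤ K) :
    ∫ t in T..(T + K), ‖∑ n ∈ S, r n * (n : ℂ) ^ (-(I * t))‖ ^ 2 ≤
      (K + 2 * N ^ 2) * ∑ n ∈ S, ‖r n‖ ^ 2 := by
  classical
  by_cases hSe : S = ∅
  · subst hSe
    simp
  obtain ⟨n0, hn0⟩ := Finset.nonempty_iff_ne_empty.2 hSe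
  have hN1 : 1 ≤ N := by
    have := hS n0 hn0
    have h1 : (1 : ℝ) ≤ n0 := by exact_mod_cast this.1
    linarith [this.2]
  -- the terms
  set e : ℕ → ℕ → ℝ → ℂ := fun m n t => cexp (I * ((Real.log n - Real.log m : ℝ) : ℂ) * t) with he
  have hterm : ∀ n ∈ S, ∀ t : ℝ, (n : ℂ) ^ (-(I * t)) = cexp (-(I * Real.log n * t)) := by
    intro n hn t
    have hn0 : (n : ℂ) ≠ 0 := by
      have := (hS n hn).1
      exact_mod_cast (by omega : n ≠ 0)
    rw [Complex.cpow_def_of_ne_zero hn0, ← Complex.natCast_log]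
    congr 1
    ring
  have hsq : ∀ t : ℝ, ((‖∑ n ∈ S, r n * (n : ℂ) ^ (-(I * t))‖ ^ 2 : ℝ) : ℂ) =
      ∑ m ∈ S, ∑ n ∈ S, r m * (starRingEnd ℂ) (r n) * e m n t := by
    intro t
    push_cast
    rw [← Complex.mul_conj', map_sum, Finset.sum_mul_sum]
    refine Finset.sum_congr rfl fun m hm => Finset.sum_congr rfl fun n hn => ?_
    rw [hterm m hm, hterm n hn, map_mul, ← Complex.exp_conj]
    have h1 : (starRingEnd ℂ) (-(I * Real.log n * t)) = I * Real.log n * t := by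
      rw [map_neg, map_mul, map_mul, Complex.conj_I, Complex.conj_ofReal, Complex.conj_ofReal]
      ring
    rw [h1, he]
    have h2 : cexp (I * ((Real.log n - Real.log m : ℝ) : ℂ) * t) =
        cexp (-(I * Real.log m * t)) * cexp (I * Real.log n * t) := by
      rw [← Complex.exp_add]
      congr 1
      push_cast
      ring
    simp only
    rw [h2]
    ring
  have hcont : ∀ m n, Continuous (e m n) := by
    intro m n
    simp only [he]
    fun_prop
  have hint : ((∫ t in T..(T + K), ‖∑ n ∈ S, r n * (n : ℂ) ^ (-(I * t))‖ ^ 2 : ℝ) : ℂ) =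
      ∑ m ∈ S, ∑ n ∈ S, r m * (starRingEnd ℂ) (r n) * ∫ t in T..(T + K), e m n t := by
    rw [← intervalIntegral.integral_ofReal]
    simp only [hsq]
    rw [intervalIntegral.integral_finsetSum]
    · refine Finset.sum_congr rfl fun m _ => ?_
      rw [intervalIntegral.integral_finsetSum]
      · refine Finset.sum_congr rfl fun n _ => ?_
        rw [intervalIntegral.integral_const_mul]
      · intro n _
        exact ((hcont m n).const_mul _ |> fun h => h).intervalIntegrable _ _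
    · intro m _
      refine Continuous.intervalIntegrable ?_ _ _
      exact continuous_finsetSum _ fun n _ => continuous_const.mul (hcont m n)
  have hdiag : ∀ m, ∫ t in T..(T + K), e m m t = K := by
    intro m
    simp [he]
  have hoff : ∀ m ∈ S, ∀ n ∈ S, m ≠ n → ‖∫ t in T..(T + K), e m n t‖ ≤ 2 * N := by
    intro m hm n hn hmn
    have h1 := log_gap (hS m hm).1 (hS m hm).2 (hS n hn).1 (hS n hn).2 hmn
    have hN0 : 0 < N := by linarith
    have h2 : 0 < |Real.log n - Real.log m| := lt_of_lt_of_le (by positivity) h1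
    have h3 := int_exp (abs_pos.1 h2) T (T + K)
    refine h3.trans ?_
    rw [div_le_iff₀ h2]
    calc (2 : ℝ) = 2 * N * (1 / N) := by field_simp
      _ ≤ 2 * N * |Real.log n - Real.log m| := mul_le_mul_of_nonneg_left h1 (by positivity)
  have hcard : (S.card : ℝ) ≤ N := by
    have h1 : S ⊆ Finset.Icc 1 ⌊N⌋₊ := by
      intro n hn
      rw [Finset.mem_Icc]
      exact ⟨(hS n hn).1, Nat.le_floor (hS n hn).2⟩
    have h2 := Finset.card_le_card h1
    rw [Nat.card_Icc, Nat.add_sub_cancel] at h2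
    exact (Nat.cast_le.2 h2).trans (Nat.floor_le (by linarith))
  have hn2 : (∑ n ∈ S, ‖r n‖) ^ 2 ≤ N * ∑ n ∈ S, ‖r n‖ ^ 2 := by
    refine (sq_sum_le_card_mul_sum_sq (s := S) (f := fun n => ‖r n‖)).trans ?_
    exact mul_le_mul_of_nonneg_right hcard (Finset.sum_nonneg fun _ _ => by positivity)
  have hnorm : ‖((∫ t in T..(T + K), ‖∑ n ∈ S, r n * (n : ℂ) ^ (-(I * t))‖ ^ 2 : ℝ) : ℂ) -
      ((K * ∑ n ∈ S, ‖r n‖ ^ 2 : ℝ) : ℂ)‖ ≤ 2 * N * (∑ n ∈ S, ‖r n‖) ^ 2 := by
    have hK' : ((K * ∑ n ∈ S, ‖r n‖ ^ 2 : ℝ) : ℂ) = ∑ m ∈ S, ∑ n ∈ S,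
        (if m = n then r m * (starRingEnd ℂ) (r n) * K else 0) := by
      push_cast
      rw [Finset.mul_sum]
      refine Finset.sum_congr rfl fun m hm => ?_
      rw [Finset.sum_ite_eq S m, if_pos hm, Complex.mul_conj']
      ring
    rw [hint, hK', ← Finset.sum_sub_distrib, sq, Finset.sum_mul_sum, Finset.mul_sum]
    refine (norm_sum_le _ _).trans (Finset.sum_le_sum fun m hm => ?_)
    rw [← Finset.sum_sub_distrib, Finset.mul_sum]
    refine (norm_sum_le _ _).trans (Finset.sum_le_sum fun n hn => ?_)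
    by_cases h : m = n
    · subst h
      rw [hdiag, if_pos rfl, sub_self, norm_zero]
      have : 0 ≤ N := by linarith
      positivity
    · rw [if_neg h, sub_zero, norm_mul, norm_mul, RCLike.norm_conj]
      calc ‖r m‖ * ‖r n‖ * ‖∫ t in T..(T + K), e m n t‖ ≤ ‖r m‖ * ‖r n‖ * (2 * N) :=
            mul_le_mul_of_nonneg_left (hoff m hm n hn h) (by positivity)
        _ = 2 * N * (‖r m‖ * ‖r n‖) := by ring
  rw [← Complex.ofReal_sub, Complex.norm_real, Real.norm_eq_abs] at hnorm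
  have h1 := (abs_le.1 hnorm).2
  have h2 : 2 * N * (∑ n ∈ S, ‖r n‖) ^ 2 ≤ 2 * N ^ 2 * ∑ n ∈ S, ‖r n‖ ^ 2 := by
    calc 2 * N * (∑ n ∈ S, ‖r n‖) ^ 2 ≤ 2 * N * (N * ∑ n ∈ S, ‖r n‖ ^ 2) :=
          mul_le_mul_of_nonneg_left hn2 (by linarith)
      _ = _ := by ring
  rw [add_mul]
  linarith

end Pool.Agent.J4.H50.Kl
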