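import Pool.Agent.J4.H50.KrMain
import Pool.Agent.J4.H50.Kl1
import Pool.Agent.J4.H50.Kl2

set_option autoImplicit false

/-!
# Tuples of zeros in the translates of a set, in every weight `|R|²`
-/

namespace Pool.Agent.J4.H50.Kl

open Finset Complex MeasureTheory
open Pool.Agent.J4.H50.Kr (simple_le_all allZeros_finite)
open Pool.Agent.Results.MP_6bc78b_nt.SimpleZerosEveryWeight (simpleZeros allZeros mult R main
  simpleZeros_finite)

/-- the simple zeros in `(T, 3T]` -/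
noncomputable def XS (T : ℝ) (h : 1 ≤ T) : Finset ℝ := (simpleZeros_finite T (3 * T) h).toFinset

/-- all zeros in `(T, 3T]` -/
noncomputable def XA (T : ℝ) (h : 1 ≤ T) : Finset ℂ := (allZeros_finite T (3 * T) h).toFinset

lemma sum_shift_S {T u K : ℝ} (hT : 1 ≤ T) (hu : 0 ≤ u) (huT : u ≤ T) (hK : K ≤ T / 2)
    (G : ℝ → ℝ) :
    ∑ᶠ t ∈ simpleZeros (T + u) (T + u + K), G (t - u) =
      ∑ i ∈ XS T hT, ((1 : ℕ) : ℝ) * (G (i - u) * (Set.Ioc T (T + K)).indicator 1 (i - u)) := by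
  classical
  have hT1 : 1 ≤ T + u := by linarith
  rw [finsum_mem_eq_finite_toFinset_sum _ (simpleZeros_finite (T + u) (T + u + K) hT1)]
  have h1 : (simpleZeros_finite (T + u) (T + u + K) hT1).toFinset =
      (XS T hT).filter (fun i => i - u ∈ Set.Ioc T (T + K)) := by
    ext i
    unfold XS
    rw [Finset.mem_filter, Set.Finite.mem_toFinset, Set.Finite.mem_toFinset, Set.mem_Ioc]
    unfold simpleZeros
    simp only [Set.mem_ofPred_eq]
    constructor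
    · rintro ⟨h1, h2, h3⟩
      exact ⟨⟨by linarith, by linarith, h3⟩, by linarith, by linarith⟩
    · rintro ⟨⟨h1, h2, h3⟩, h4, h5⟩
      exact ⟨by linarith, by linarith, h3⟩
  rw [h1, Finset.sum_filter]
  refine Finset.sum_congr rfl fun i _ => ?_
  by_cases h2 : i - u ∈ Set.Ioc T (T + K)
  · rw [if_pos h2, Set.indicator_of_mem h2]
    simp
  · rw [if_neg h2, Set.indicator_of_notMem h2]
    simp

lemma sum_shift_A {T u K : ℝ} (hT : 1 ≤ T) (hu : 0 ≤ u) (huT : u ≤ T) (hK : K ≤ T / 2)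
    (G : ℝ → ℝ) :
    ∑ᶠ s ∈ allZeros (T + u) (T + u + K), (mult s : ℝ) * G (s.im - u) =
      ∑ i ∈ XA T hT, (mult i : ℝ) * (G (i.im - u) * (Set.Ioc T (T + K)).indicator 1 (i.im - u)) := by
  classical
  have hT1 : 1 ≤ T + u := by linarith
  rw [finsum_mem_eq_finite_toFinset_sum _ (allZeros_finite (T + u) (T + u + K) hT1)]
  have h1 : (allZeros_finite (T + u) (T + u + K) hT1).toFinset =
      (XA T hT).filter (fun i => i.im - u ∈ Set.Ioc T (T + K)) := by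
    ext i
    unfold XA
    rw [Finset.mem_filter, Set.Finite.mem_toFinset, Set.Finite.mem_toFinset, Set.mem_Ioc]
    unfold allZeros
    simp only [Set.mem_ofPred_eq]
    constructor
    · rintro ⟨h0, h1, h2, h3, h4⟩
      exact ⟨⟨h0, h1, h2, by linarith, by linarith⟩, by linarith, by linarith⟩
    · rintro ⟨⟨h0, h1, h2, h3, h4⟩, h5, h6⟩
      exact ⟨h0, h1, h2, by linarith, by linarith⟩
  rw [h1, Finset.sum_filter]
  refine Finset.sum_congr rfl fun i _ => ?_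
  by_cases h2 : i.im - u ∈ Set.Ioc T (T + K)
  · rw [if_pos h2, Set.indicator_of_mem h2]
    simp
  · rw [if_neg h2, Set.indicator_of_notMem h2]
    simp

/-- the twisted coefficients -/
noncomputable def tw (r : ℕ → ℂ) (u : ℝ) (n : ℕ) : ℂ := r n * (n : ℂ) ^ (I * u)

lemma tw_norm (r : ℕ → ℂ) (u : ℝ) {n : ℕ} (hn : 1 ≤ n) : ‖tw r u n‖ = ‖r n‖ := by
  unfold tw
  rw [norm_mul, Complex.norm_natCast_cpow_of_pos hn]
  simp

lemma R_tw {S : Finset ℕ} (hS : ∀ n ∈ S, 1 ≤ n) (r : ℕ → ℂ) (u t : ℝ) :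
    R S (tw r u) t = R S r (t - u) := by
  unfold R tw
  refine Finset.sum_congr rfl fun n hn => ?_
  have hn0 : (n : ℂ) ≠ 0 := by
    have := hS n hn
    exact_mod_cast (by omega : n ≠ 0)
  rw [mul_assoc, ← Complex.cpow_add _ _ hn0]
  congr 2
  push_cast
  ring

lemma main_tw {S : Finset ℕ} (hS : ∀ n ∈ S, 1 ≤ n) (r : ℕ → ℂ) (u T K : ℝ) :
    main T K S (tw r u) = main T K S r := by
  unfold main
  congr 1
  exact Finset.sum_congr rfl fun n hn => by rw [tw_norm r u (hS n hn)]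

lemma main_mono {S : Finset ℕ} (r : ℕ → ℂ) {T T' K : ℝ} (hT : 1 ≤ T) (hTT : T ≤ T') (hK : 0 ≤ K) :
    main T K S r ≤ main T' K S r := by
  unfold main
  have := Real.pi_pos
  have h1 : Real.log T ≤ Real.log T' := Real.log_le_log (by linarith) hTT
  refine mul_le_mul_of_nonneg_right ?_ (Finset.sum_nonneg fun _ _ => by positivity)
  exact mul_le_mul_of_nonneg_left h1 (by positivity)

lemma R_cont {S : Finset ℕ} {N : ℝ} (hS : ∀ n ∈ S, 1 ≤ n ∧ (n : ℝ) ≤ N) (r : ℕ → ℂ) :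
    Continuous fun t : ℝ => ‖R S r t‖ ^ 2 := by
  unfold R
  refine (continuous_norm.comp (continuous_finsetSum _ fun n hn => ?_)).pow 2
  have hn0 : (n : ℂ) ≠ 0 := by
    have := (hS n hn).1
    exact_mod_cast (by omega : n ≠ 0)
  refine continuous_const.mul ?_
  have h1 : (fun t : ℝ => (n : ℂ) ^ (-(I * (t : ℂ)))) =
      fun t : ℝ => cexp (Complex.log n * (-(I * t))) := by
    funext t
    exact Complex.cpow_def_of_ne_zero hn0 _
  rw [h1]
  fun_prop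

/-- `(1 - c) log (2T) ≤ (1 - δ) log T` -/
lemma pow_two {δ c T : ℝ} (hT : 1 ≤ T) (hδ : 0 < δ) (hδ1 : δ ≤ 1) (hc : c ≤ δ / 2)
    (hTδ : 2 ≤ T ^ (δ / 2)) {u : ℝ} (hu : 0 ≤ u) (huT : u ≤ T) :
    (T + u) ^ (1 - δ) ≤ T ^ (1 - c) := by
  have hT0 : 0 < T := by linarith
  have h1 : (T + u) ^ (1 - δ) ≤ (2 * T) ^ (1 - δ) :=
    Real.rpow_le_rpow (by linarith) (by linarith) (by linarith)
  have h2 : (2 * T) ^ (1 - δ) = 2 ^ (1 - δ) * T ^ (1 - δ) :=
    Real.mul_rpow (by norm_num) hT0.le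
  have h3 : (2 : ℝ) ^ (1 - δ) ≤ 2 := by
    calc (2 : ℝ) ^ (1 - δ) ≤ 2 ^ (1 : ℝ) :=
          Real.rpow_le_rpow_of_exponent_le (by norm_num) (by linarith)
      _ = 2 := Real.rpow_one 2
  calc (T + u) ^ (1 - δ) ≤ 2 ^ (1 - δ) * T ^ (1 - δ) := h1.trans h2.le
    _ ≤ T ^ (δ / 2) * T ^ (1 - δ) :=
        mul_le_mul_of_nonneg_right (h3.trans hTδ) (by positivity)
    _ = T ^ (1 - δ / 2) := by
        rw [← Real.rpow_add hT0]
        congr 1
        ring
    _ ≤ T ^ (1 - c) := Real.rpow_le_rpow_of_exponent_le hT (by linarith)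

lemma ev_pow (a : ℝ) (ha : 0 < a) (b : ℝ) : ∃ T₀ : ℝ, 1 ≤ T₀ ∧ ∀ T : ℝ, T₀ ≤ T → b ≤ T ^ a := by
  obtain ⟨T₁, h⟩ := Filter.eventually_atTop.1 ((tendsto_rpow_atTop ha).eventually_ge_atTop b)
  exact ⟨max 1 T₁, le_max_left _ _, fun T hT => h T ((le_max_right _ _).trans hT)⟩

/-- the numbers of points -/
noncomputable def NS (T : ℝ) (h : 1 ≤ T) (U : Set ℝ) (t : ℝ) : ℕ :=
  NU (XS T h) id (fun _ => 1) U t

/-- the numbers of points -/
noncomputable def NA (T : ℝ) (h : 1 ≤ T) (U : Set ℝ) (t : ℝ) : ℕ :=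
  NU (XA T h) Complex.im mult U t

/-- **every weight** -/
theorem every_weight : ∀ ε : ℝ, 0 < ε → ∃ δ T₀ : ℝ, 0 < δ ∧ 1 ≤ T₀ ∧ ∀ T : ℝ, T₀ ≤ T →
    ∀ hT : 1 ≤ T, ∀ K : ℝ, T ^ (1 - δ) ≤ K → K ≤ T / 2 →
    ∀ S : Finset ℕ, (∀ n ∈ S, 1 ≤ n ∧ (n : ℝ) ≤ T ^ δ) → ∀ r : ℕ → ℂ,
    ∀ (U : Set ℝ) (Λ : ℝ), MeasurableSet U → U ⊆ Set.Icc 0 T → 0 ≤ Λ →
    volume U = ENNReal.ofReal (2 * Real.pi * Λ / Real.log T) → ∀ k : ℕ, k ≠ 0 →
    ((k : ℝ) - 1 ≤ (0.6725 - ε) * Λ →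
      K * (∑ n ∈ S, ‖r n‖ ^ 2) * (descPochhammer ℝ k).eval ((0.6725 - ε) * Λ) ≤
        ∫ t in T..(T + K), ‖R S r t‖ ^ 2 * ((NS T hT U t).descFactorial k : ℝ)) ∧
    ((k : ℝ) - 1 ≤ (1 - ε) * Λ →
      K * (∑ n ∈ S, ‖r n‖ ^ 2) * (descPochhammer ℝ k).eval ((1 - ε) * Λ) ≤
        ∫ t in T..(T + K), ‖R S r t‖ ^ 2 * ((NA T hT U t).descFactorial k : ℝ)) := by
  classical
  intro ε0 hε0
  obtain ⟨ε, hε, hε1, hεε0⟩ : ∃ ε : ℝ, 0 < ε ∧ ε ≤ 1 / 4 ∧ 3 * ε ≤ ε0 :=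
    ⟨min (1 / 4) (ε0 / 3), lt_min (by norm_num) (by positivity), min_le_left _ _, by
      have := min_le_right (1 / 4 : ℝ) (ε0 / 3)
      linarith⟩
  obtain ⟨δ', T₁, hδ', hEW⟩ :=
    Pool.Agent.Results.MP_6bc78b_nt.SimpleZerosEveryWeight.result ε hε
  obtain ⟨δ1, hδ1, hδ11, hδ1δ⟩ : ∃ δ1 : ℝ, 0 < δ1 ∧ δ1 ≤ 1 / 8 ∧ δ1 ≤ δ' :=
    ⟨min (1 / 8) δ', lt_min (by norm_num) hδ', min_le_left _ _, min_le_right _ _⟩
  obtain ⟨T₂, hT₂1, hT₂⟩ := ev_pow (δ1 / 2) (by positivity) (max 2 (2 / ε))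
  refine ⟨δ1 / 2, max (max T₁ T₂) 3, by positivity,
    hT₂1.trans ((le_max_right _ _).trans (le_max_left _ _)), ?_⟩
  intro T hTT hT K hK1 hK2 S hS r U Λ hUm hUT hΛ hUv k hk
  have hTT1 : T₁ ≤ T := ((le_max_left _ _).trans (le_max_left _ _)).trans hTT
  have hTT2 := hT₂ T (((le_max_right _ _).trans (le_max_left _ _)).trans hTT)
  have hT3 : 3 ≤ T := (le_max_right _ _).trans hTT
  have hT0 : 0 < T := by linarith
  have hlog : 0 < Real.log T := Real.log_pos (by linarith)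
  have hpi := Real.pi_pos
  have h2T : 2 ≤ T ^ (δ1 / 2) := (le_max_left _ _).trans hTT2
  have hεT : 2 / ε ≤ T ^ (δ1 / 2) := (le_max_right _ _).trans hTT2
  have hK0 : 0 < K := lt_of_lt_of_le (by positivity) hK1
  have hS1 : ∀ n ∈ S, 1 ≤ n := fun n hn => (hS n hn).1
  -- the first moments
  have hEWu : ∀ u : ℝ, 0 ≤ u → u ≤ T →
      (0.6725 - ε) * main T K S r ≤
        ∑ᶠ t ∈ simpleZeros (T + u) (T + u + K), ‖R S r (t - u)‖ ^ 2 ∧
      (1 - ε) * main T K S r ≤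
        ∑ᶠ s ∈ allZeros (T + u) (T + u + K), (mult s : ℝ) * ‖R S r (s.im - u)‖ ^ 2 := by
    intro u hu huT
    have hK1' : (T + u) ^ (1 - δ') ≤ K := by
      refine le_trans ?_ hK1
      refine le_trans ?_ (pow_two hT hδ1 (by linarith) le_rfl h2T hu huT)
      exact Real.rpow_le_rpow_of_exponent_le (by linarith) (by linarith)
    have hS' : ∀ n ∈ S, 1 ≤ n ∧ (n : ℝ) ≤ (T + u) ^ δ' := by
      intro n hn
      refine ⟨(hS n hn).1, (hS n hn).2.trans ?_⟩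
      calc T ^ (δ1 / 2) ≤ T ^ δ' := Real.rpow_le_rpow_of_exponent_le hT (by linarith)
        _ ≤ (T + u) ^ δ' := Real.rpow_le_rpow hT0.le (by linarith) hδ'.le
    obtain ⟨h1, h2⟩ := hEW (T + u) (by linarith) K hK1' (by linarith) S hS' (tw r u)
    simp only [R_tw hS1, main_tw hS1] at h1 h2
    have h3 := main_mono (S := S) r hT (show T ≤ T + u by linarith) hK0.le
    constructor
    · exact (mul_le_mul_of_nonneg_left h3 (by linarith)).trans h1
    · have h4 := (abs_le.1 h2).1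
      have h5 := mul_le_mul_of_nonneg_left h3 (show 0 ≤ 1 - ε by linarith)
      linarith
  set I0 : Set ℝ := Set.Ioc T (T + K) with hI0
  have hGc := R_cont hS r
  have hGi : IntegrableOn (fun t => ‖R S r t‖ ^ 2) I0 :=
    (hGc.integrableOn_Icc (a := T) (b := T + K)).mono_set Set.Ioc_subset_Icc_self
  have hUf : volume U ≠ ⊤ := by rw [hUv]; exact ENNReal.ofReal_ne_top
  have hUr : (volume U).toReal = 2 * Real.pi * Λ / Real.log T := by
    rw [hUv, ENNReal.toReal_ofReal]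
    positivity
  have hmainU : ∀ q : ℝ, q * main T K S r * (volume U).toReal =
      q * Λ * (K * ∑ n ∈ S, ‖r n‖ ^ 2) := by
    intro q
    rw [hUr]
    unfold main
    field_simp
  -- the mean square
  have hms : ∫ t in I0, ‖R S r t‖ ^ 2 ≤ (1 + ε) * (K * ∑ n ∈ S, ‖r n‖ ^ 2) := by
    have h1 := mean_sq S r hS T hK0.le
    rw [intervalIntegral.integral_of_le (by linarith)] at h1
    refine h1.trans ?_
    rw [← mul_assoc]
    refine mul_le_mul_of_nonneg_right ?_ (Finset.sum_nonneg fun _ _ => by positivity)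
    have h2 : 2 * (T ^ (δ1 / 2)) ^ 2 ≤ ε * K := by
      have h3 : 2 ≤ ε * T ^ (δ1 / 2) := by
        rw [div_le_iff₀ hε] at hεT
        linarith
      have h4 : (T ^ (δ1 / 2)) ^ 2 * T ^ (δ1 / 2) ≤ K := by
        refine le_trans ?_ hK1
        rw [← Real.rpow_natCast, ← Real.rpow_mul hT0.le, ← Real.rpow_add hT0]
        refine Real.rpow_le_rpow_of_exponent_le hT ?_
        push_cast
        linarith
      have h5 : 0 ≤ (T ^ (δ1 / 2)) ^ 2 := by positivity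
      calc 2 * (T ^ (δ1 / 2)) ^ 2 ≤ (ε * T ^ (δ1 / 2)) * (T ^ (δ1 / 2)) ^ 2 :=
            mul_le_mul_of_nonneg_right h3 h5
        _ = ε * ((T ^ (δ1 / 2)) ^ 2 * T ^ (δ1 / 2)) := by ring
        _ ≤ ε * K := mul_le_mul_of_nonneg_left h4 hε.le
    linarith
  set M : ℝ := K * ∑ n ∈ S, ‖r n‖ ^ 2 with hM
  have hM0 : 0 ≤ M := mul_nonneg hK0.le (Finset.sum_nonneg fun _ _ => by positivity)
  -- from a first moment to the bound
  have key : ∀ (N : ℝ → ℕ), Measurable N → ∀ B : ℕ, (∀ t, N t ≤ B) → ∀ q : ℝ, ε ≤ q → q ≤ 1 →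
      (q - ε) * Λ * M ≤ ∫ t in I0, ‖R S r t‖ ^ 2 * (N t : ℝ) →
      (k : ℝ) - 1 ≤ (q - ε0) * Λ →
      M * (descPochhammer ℝ k).eval ((q - ε0) * Λ) ≤
        ∫ t in T..(T + K), ‖R S r t‖ ^ 2 * ((N t).descFactorial k : ℝ) := by
    intro N hN B hB q hq0 hq1 hmom hkq
    rw [intervalIntegral.integral_of_le (by linarith)]
    rcases hM0.eq_or_lt with hM00 | hMpos
    · rw [← hM00, zero_mul]
      exact integral_nonneg fun t => by positivity
    have hb0 : 0 < (1 + ε) * M := by positivity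
    have hratio : (q - ε0) * Λ ≤ (q - ε) * Λ * M / ((1 + ε) * M) := by
      rw [mul_div_mul_right _ _ hMpos.ne', le_div_iff₀ (by linarith)]
      have : (q - ε0) * (1 + ε) ≤ q - ε := by nlinarith
      calc (q - ε0) * Λ * (1 + ε) = (q - ε0) * (1 + ε) * Λ := by ring
        _ ≤ (q - ε) * Λ := mul_le_mul_of_nonneg_right this hΛ
    have h1 := jensen hGi (fun t => by positivity) hN B hB hk hb0 hms hmom (hkq.trans hratio)
    refine le_trans ?_ h1
    have h2 := monotoneOn_descPochhammer_eval (S := ℝ) k (Set.mem_Ici.2 hkq)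
      (Set.mem_Ici.2 (hkq.trans hratio)) hratio
    have h3 : 0 ≤ (descPochhammer ℝ k).eval ((q - ε0) * Λ) := descPochhammer_nonneg hkq
    calc M * (descPochhammer ℝ k).eval ((q - ε0) * Λ) ≤
          ((1 + ε) * M) * (descPochhammer ℝ k).eval ((q - ε0) * Λ) := by
          refine mul_le_mul_of_nonneg_right ?_ h3
          nlinarith
      _ ≤ _ := mul_le_mul_of_nonneg_left h2 hb0.le
  constructor
  · intro hkΛ
    refine key (NS T hT U) (NU_meas _ _ _ hUm) _ (NU_le _ _ _ U) 0.6725 (by linarith)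
      (by norm_num) ?_ hkΛ
    have h1 := first_moment (XS T hT) id (fun _ => 1) hUm measurableSet_Ioc hGi hUf
      (a := (0.6725 - ε) * main T K S r) (fun u hu => by
        have hu' := hUT hu
        have h2 := (hEWu u hu'.1 hu'.2).1
        rw [sum_shift_S hT hu'.1 hu'.2 hK2 (fun t => ‖R S r t‖ ^ 2)] at h2
        exact h2)
    rw [hmainU] at h1
    exact h1
  · intro hkΛ
    refine key (NA T hT U) (NU_meas _ _ _ hUm) _ (NU_le _ _ _ U) 1 (by linarith)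
      le_rfl ?_ hkΛ
    have h1 := first_moment (XA T hT) Complex.im mult hUm measurableSet_Ioc hGi hUf
      (a := (1 - ε) * main T K S r) (fun u hu => by
        have hu' := hUT hu
        have h2 := (hEWu u hu'.1 hu'.2).2
        rw [sum_shift_A hT hu'.1 hu'.2 hK2 (fun t => ‖R S r t‖ ^ 2)] at h2
        exact h2)
    rw [hmainU] at h1
    exact h1

end Pool.Agent.J4.H50.Kl
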