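import Pool.Agent.J4.H50.Kl3

set_option autoImplicit false

/-!
# The first moment in Bohr sets
-/

namespace Pool.Agent.J4.H50.Kl

open Finset Complex MeasureTheory
open Pool.Agent.J4.H50.Kr
open Pool.Agent.Results.MP_6bc78b_nt.SimpleZerosEveryWeight (simpleZeros allZeros mult R main
  simpleZeros_finite)

open Classical in
/-- the weight of the Bohr set -/
noncomputable def GB (P : Finset ℕ) (J m : ℕ → ℕ) (e : ℕ → ℝ) (z : ℕ → ℂ) (t : ℝ) : ℝ :=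
  if ∀ p ∈ P, ‖(p : ℂ) ^ (I * t) - z p‖ < e p then ∏ p ∈ P, V J z p t ^ m p else 0

lemma GB_nonneg (P : Finset ℕ) (J m : ℕ → ℕ) (e : ℕ → ℝ) (z : ℕ → ℂ) (t : ℝ) :
    0 ≤ GB P J m e z t := by
  unfold GB
  split_ifs
  · exact prod_nonneg fun p _ => pow_nonneg (V_nonneg J z p t) _
  · exact le_rfl

/-- the twist of the points -/
noncomputable def zt (z : ℕ → ℂ) (u : ℝ) (p : ℕ) : ℂ :=
  if p = 0 then 1 else z p * (p : ℂ) ^ (I * u)

lemma zt_norm (z : ℕ → ℂ) (hz : ∀ p, ‖z p‖ = 1) (u : ℝ) (p : ℕ) : ‖zt z u p‖ = 1 := by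
  unfold zt
  split_ifs with h
  · simp
  · rw [norm_mul, hz, Complex.norm_natCast_cpow_of_pos (Nat.pos_of_ne_zero h)]
    simp

lemma V_zt (J : ℕ → ℕ) (z : ℕ → ℂ) (u t : ℝ) {p : ℕ} (hp : 0 < p) :
    V J (zt z u) p t = V J z p (t - u) := by
  have hp0 : (p : ℂ) ≠ 0 := by exact_mod_cast hp.ne'
  have h1 : zt z u p * (p : ℂ) ^ (-(I * t)) = z p * (p : ℂ) ^ (-(I * ((t - u : ℝ) : ℂ))) := by
    unfold zt
    rw [if_neg hp.ne', mul_assoc, ← Complex.cpow_add _ _ hp0]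
    congr 2
    push_cast
    ring
  unfold V
  rw [h1]

lemma dist_zt (z : ℕ → ℂ) (u t : ℝ) {p : ℕ} (hp : 0 < p) :
    ‖(p : ℂ) ^ (I * t) - zt z u p‖ = ‖(p : ℂ) ^ (I * ((t - u : ℝ) : ℂ)) - z p‖ := by
  have hp0 : (p : ℂ) ≠ 0 := by exact_mod_cast hp.ne'
  have h1 : (p : ℂ) ^ (I * t) - zt z u p =
      ((p : ℂ) ^ (I * ((t - u : ℝ) : ℂ)) - z p) * (p : ℂ) ^ (I * u) := by
    unfold zt
    rw [if_neg hp.ne', sub_mul, ← Complex.cpow_add _ _ hp0]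
    congr 2
    push_cast
    ring
  rw [h1, norm_mul, Complex.norm_natCast_cpow_of_pos hp]
  simp

lemma GB_zt (P : Finset ℕ) (hP : ∀ p ∈ P, p.Prime) (J m : ℕ → ℕ) (e : ℕ → ℝ) (z : ℕ → ℂ)
    (u t : ℝ) : GB P J m e (zt z u) t = GB P J m e z (t - u) := by
  classical
  unfold GB
  have h1 : (∀ p ∈ P, ‖(p : ℂ) ^ (I * t) - zt z u p‖ < e p) ↔
      ∀ p ∈ P, ‖(p : ℂ) ^ (I * ((t - u : ℝ) : ℂ)) - z p‖ < e p :=
    forall₂_congr fun p hp => by rw [dist_zt z u t (hP p hp).pos]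
  have h2 : ∏ p ∈ P, V J (zt z u) p t ^ m p = ∏ p ∈ P, V J z p (t - u) ^ m p :=
    prod_congr rfl fun p hp => by rw [V_zt J z u t (hP p hp).pos]
  simp only [h1, h2]

/-- the bounds for the weights that are products -/
lemma weights2 (ε : ℝ) (hε : 0 < ε) : ∃ δ T₀ : ℝ, 0 < δ ∧ 1 ≤ T₀ ∧ ∀ T : ℝ, T₀ ≤ T →
    ∀ K : ℝ, T ^ (1 - δ) ≤ K → K ≤ T / 2 →
    ∀ P : Finset ℕ, (∀ p ∈ P, p.Prime) → ∀ (J m : ℕ → ℕ),
    ∏ p ∈ P, (p : ℝ) ^ (m p * (J p - 1)) ≤ T ^ δ →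
    ∀ z : ℕ → ℂ, (∀ p, ‖z p‖ = 1) →
    ((0.6725 - ε) * (K / (2 * Real.pi) * Real.log T * ∏ p ∈ P, nn (J p) (m p)) ≤
      ∑ᶠ t ∈ simpleZeros T (T + K), ∏ p ∈ P, V J z p t ^ m p) ∧
    (∑ᶠ s ∈ allZeros T (T + K), (mult s : ℝ) * ∏ p ∈ P, V J z p s.im ^ m p ≤
      (1 + ε) * (K / (2 * Real.pi) * Real.log T * ∏ p ∈ P, nn (J p) (m p))) := by
  obtain ⟨δ, T₀, hδ, h⟩ :=
    Pool.Agent.Results.MP_6bc78b_nt.SimpleZerosEveryWeight.result ε hε
  refine ⟨δ, max T₀ 1, hδ, le_max_right _ _, ?_⟩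
  intro T hT K hK1 hK2 P hP J m hprod z hz
  have hT0 : T₀ ≤ T := (le_max_left _ _).trans hT
  obtain ⟨h1, h2⟩ := h T hT0 K hK1 hK2 (SS P J m) (SS_le P hP J m _ hprod) (co P J m z)
  rw [abs_le] at h2
  simp only [norm_R P hP J m z, main_eq P hP J m z hz] at h1 h2
  constructor
  · exact h1
  · linarith [h2.2]

/-- the simple zeros in a Bohr set carry the right mass -/
theorem general2 (ε : ℝ) (hε : 0 < ε) (hε1 : ε ≤ 1) :
    ∃ δ T₀ : ℝ, 0 < δ ∧ 1 ≤ T₀ ∧ ∀ T : ℝ, T₀ ≤ T →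
    ∀ K : ℝ, T ^ (1 - δ) ≤ K → K ≤ T / 2 →
    ∀ P : Finset ℕ, (∀ p ∈ P, p.Prime) → ∀ (J m : ℕ → ℕ) (e : ℕ → ℝ),
    (∀ p ∈ P, 1 ≤ J p ∧ 1 ≤ m p ∧ 0 < e p) →
    ∏ p ∈ P, (p : ℝ) ^ (m p * (J p - 1)) ≤ T ^ δ →
    ∑ p ∈ P, (m p : ℝ) * (2 / (J p * e p)) ^ (2 * (m p - 1)) ≤ ε / 4 →
    ∀ z : ℕ → ℂ, (∀ p, ‖z p‖ = 1) →
    (0.6725 - ε) * (K / (2 * Real.pi) * Real.log T * ∏ p ∈ P, nn (J p) (m p)) ≤
      ∑ᶠ t ∈ simpleZeros T (T + K), GB P J m e z t := by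
  classical
  obtain ⟨δ, T₀, hδ, hT₀, h⟩ := weights2 (ε / 2) (by positivity)
  refine ⟨δ, T₀, hδ, hT₀, ?_⟩
  intro T hT K hK1 hK2 P hP J m e hJme hprod hsum z hz
  have hT1 : 1 ≤ T := hT₀.trans hT
  have hK0 : 0 ≤ K := le_trans (by positivity) hK1
  have hlog : 0 ≤ Real.log T := Real.log_nonneg hT1
  have hpi := Real.pi_pos
  set X := (simpleZeros_finite T (T + K) hT1).toFinset with hX
  have hXs : ∀ F : ℝ → ℝ, ∑ᶠ t ∈ simpleZeros T (T + K), F t = ∑ t ∈ X, F t := by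
    intro F
    rw [hX, finsum_mem_eq_finite_toFinset_sum _ (simpleZeros_finite T (T + K) hT1)]
  have hVpos : ∀ p t, 0 ≤ V J z p t := fun p t => V_nonneg J z p t
  have hprodV : ∀ (P' : Finset ℕ) (m' : ℕ → ℕ) (t : ℝ), 0 ≤ ∏ p ∈ P', V J z p t ^ m' p :=
    fun P' m' t => prod_nonneg fun p _ => pow_nonneg (hVpos p t) _
  have hnn : ∀ (P' : Finset ℕ) (m' : ℕ → ℕ), 0 ≤ ∏ p ∈ P', nn (J p) (m' p) :=
    fun P' m' => prod_nonneg fun p _ => nn_nonneg _ _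
  -- upper bounds
  have hup : ∀ m' : ℕ → ℕ, (∀ p ∈ P, m' p ≤ m p) → ∑ t ∈ X, ∏ p ∈ P, V J z p t ^ m' p ≤
      2 * (K / (2 * Real.pi) * Real.log T * ∏ p ∈ P, nn (J p) (m' p)) := by
    intro m' hm'
    have hprod' : ∏ p ∈ P, (p : ℝ) ^ (m' p * (J p - 1)) ≤ T ^ δ := by
      refine le_trans (prod_le_prod (fun p _ => by positivity) fun p hp => ?_) hprod
      exact pow_le_pow_right₀ (by exact_mod_cast (hP p hp).one_le)
        (Nat.mul_le_mul_right _ (hm' p hp))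
    obtain ⟨-, h2⟩ := h T hT K hK1 hK2 P hP J m' hprod' z hz
    have h3 := simple_le_all hT1 (T₂ := T + K) (fun t => ∏ p ∈ P, V J z p t ^ m' p)
      (fun t => hprodV P m' t)
    rw [hXs] at h3
    refine (h3.trans h2).trans (mul_le_mul_of_nonneg_right (by linarith) ?_)
    exact mul_nonneg (by positivity) (hnn P m')
  -- the lower bound
  set M : ℝ := K / (2 * Real.pi) * Real.log T * ∏ p ∈ P, nn (J p) (m p) with hM
  have hlow : (0.6725 - ε / 2) * M ≤ ∑ t ∈ X, ∏ p ∈ P, V J z p t ^ m p := by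
    obtain ⟨h1, -⟩ := h T hT K hK1 hK2 P hP J m hprod z hz
    rw [hXs] at h1
    exact h1
  have hM0 : 0 ≤ M := by
    rw [hM]
    exact mul_nonneg (by positivity) (hnn P m)
  -- the bad zeros
  set bad : ℕ → Finset ℝ := fun q => X.filter fun t => e q ≤ ‖(q : ℂ) ^ (I * t) - z q‖ with hbad
  have hb : ∀ q ∈ P, ∑ t ∈ bad q, ∏ p ∈ P, V J z p t ^ m p ≤
      2 * ((m q : ℝ) * (2 / (J q * e q)) ^ (2 * (m q - 1))) * M := by
    intro q hq
    have hq0 : 0 < q := (hP q hq).pos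
    obtain ⟨hJ1, hm1, he0⟩ := hJme q hq
    have hJr : (0 : ℝ) < J q := by exact_mod_cast hJ1
    set m' : ℕ → ℕ := Function.update m q 1 with hm'
    have hm'q : m' q = 1 := Function.update_self q 1 m
    have hm'p : ∀ p ∈ P.erase q, m' p = m p := fun p hp =>
      Function.update_of_ne (mem_erase.1 hp).1 _ _
    have hm'le : ∀ p ∈ P, m' p ≤ m p := by
      intro p hp
      by_cases hpq : p = q
      · rw [hpq, hm'q]; exact hm1
      · rw [hm'p p (mem_erase.2 ⟨hpq, hp⟩)]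
    have hsplit : ∀ (F : ℕ → ℕ → ℝ), ∏ p ∈ P, F p (m' p) =
        F q 1 * ∏ p ∈ P.erase q, F p (m p) := by
      intro F
      rw [← mul_prod_erase P _ hq, hm'q]
      congr 1
      exact prod_congr rfl fun p hp => by rw [hm'p p hp]
    have h1 : ∑ t ∈ bad q, ∏ p ∈ P, V J z p t ^ m p ≤
        ∑ t ∈ X, (2 / e q) ^ (2 * (m q - 1)) * ∏ p ∈ P, V J z p t ^ m' p := by
      refine (sum_le_sum fun t ht => ?_).trans (sum_le_sum_of_subset_of_nonneg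
        (filter_subset _ _) fun t _ _ => mul_nonneg (by positivity) (hprodV _ _ _))
      rw [← mul_prod_erase P _ hq, hsplit (fun p j => V J z p t ^ j), pow_one]
      have h5 := V_far J z hz q hq0 t (e q) he0 (mem_filter.1 ht).2
      have h6 : V J z q t ^ m q ≤ (2 / e q) ^ (2 * (m q - 1)) * V J z q t := by
        obtain ⟨k, hk⟩ : ∃ k, m q = k + 1 := ⟨m q - 1, by omega⟩
        rw [hk, Nat.add_sub_cancel, pow_succ, pow_mul]
        exact mul_le_mul_of_nonneg_right (pow_le_pow_left₀ (hVpos q t) h5 _) (hVpos q t)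
      calc _ ≤ ((2 / e q) ^ (2 * (m q - 1)) * V J z q t) * ∏ p ∈ P.erase q, V J z p t ^ m p :=
            mul_le_mul_of_nonneg_right h6 (hprodV _ _ _)
        _ = _ := by ring
    rw [← mul_sum] at h1
    have h2 := hup m' hm'le
    rw [hsplit (fun p j => nn (J p) j), nn_one _ hJ1] at h2
    have h3 : M = nn (J q) (m q) * (K / (2 * Real.pi) * Real.log T *
        ∏ p ∈ P.erase q, nn (J p) (m p)) := by
      rw [hM, ← mul_prod_erase P _ hq]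
      ring
    set M' : ℝ := K / (2 * Real.pi) * Real.log T * ∏ p ∈ P.erase q, nn (J p) (m p) with hM'
    have hM'0 : 0 ≤ M' := by
      rw [hM']
      exact mul_nonneg (by positivity) (hnn _ _)
    have h7 := nn_ge (J q) (m q) hJ1 hm1
    have h11 : (2 / e q) ^ (2 * (m q - 1)) * (J q : ℝ) ≤
        (m q : ℝ) * (2 / (J q * e q)) ^ (2 * (m q - 1)) * nn (J q) (m q) := by
      have h12 : (2 / e q) ^ (2 * (m q - 1)) * (J q : ℝ) * (J q : ℝ) =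
          (2 / (J q * e q)) ^ (2 * (m q - 1)) * (J q : ℝ) ^ (2 * m q) := by
        obtain ⟨k, hk⟩ : ∃ k, m q = k + 1 := ⟨m q - 1, by omega⟩
        have h9 : 2 / e q = (2 / (J q * e q)) * J q := by field_simp
        rw [hk, Nat.add_sub_cancel, h9, mul_pow, show 2 * (k + 1) = 2 * k + 2 by ring, pow_add]
        ring
      have h14 : (2 / e q) ^ (2 * (m q - 1)) * (J q : ℝ) * (J q : ℝ) ≤
          (m q : ℝ) * (2 / (J q * e q)) ^ (2 * (m q - 1)) * nn (J q) (m q) * (J q : ℝ) := by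
        rw [h12]
        calc _ ≤ (2 / (J q * e q)) ^ (2 * (m q - 1)) * ((m q * J q : ℝ) * nn (J q) (m q)) :=
              mul_le_mul_of_nonneg_left h7 (by positivity)
          _ = _ := by ring
      exact le_of_mul_le_mul_right h14 hJr
    calc ∑ t ∈ bad q, ∏ p ∈ P, V J z p t ^ m p ≤
        (2 / e q) ^ (2 * (m q - 1)) * ∑ t ∈ X, ∏ p ∈ P, V J z p t ^ m' p := h1
      _ ≤ (2 / e q) ^ (2 * (m q - 1)) * (2 * (K / (2 * Real.pi) * Real.log T *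
          ((J q : ℝ) * ∏ p ∈ P.erase q, nn (J p) (m p)))) :=
        mul_le_mul_of_nonneg_left h2 (by positivity)
      _ = ((2 / e q) ^ (2 * (m q - 1)) * (J q : ℝ)) * (2 * M') := by rw [hM']; ring
      _ ≤ ((m q : ℝ) * (2 / (J q * e q)) ^ (2 * (m q - 1)) * nn (J q) (m q)) *
          (2 * M') := mul_le_mul_of_nonneg_right h11 (by positivity)
      _ = 2 * ((m q : ℝ) * (2 / (J q * e q)) ^ (2 * (m q - 1))) * M := by
        rw [h3]; ring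
  have hsplit : ∑ t ∈ X, ∏ p ∈ P, V J z p t ^ m p ≤
      ∑ t ∈ X, GB P J m e z t + ∑ q ∈ P, ∑ t ∈ bad q, ∏ p ∈ P, V J z p t ^ m p := by
    simp only [hbad, sum_filter]
    rw [sum_comm, ← sum_add_distrib]
    refine sum_le_sum fun t _ => ?_
    have hnn : ∀ q ∈ P, (0 : ℝ) ≤ if e q ≤ ‖(q : ℂ) ^ (I * t) - z q‖ then
        ∏ p ∈ P, V J z p t ^ m p else 0 := fun q _ => by split_ifs; exacts [hprodV _ _ _, le_rfl]
    unfold GB
    by_cases hg : ∀ p ∈ P, ‖(p : ℂ) ^ (I * t) - z p‖ < e p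
    · rw [if_pos hg]
      have := sum_nonneg hnn
      linarith
    · rw [if_neg hg]
      push Not at hg
      obtain ⟨q, hq, hqe⟩ := hg
      have h1 := single_le_sum hnn hq
      rw [if_pos hqe] at h1
      linarith
  have hbs : ∑ q ∈ P, ∑ t ∈ bad q, ∏ p ∈ P, V J z p t ^ m p ≤ ε / 2 * M := by
    calc _ ≤ ∑ q ∈ P, 2 * ((m q : ℝ) * (2 / (J q * e q)) ^ (2 * (m q - 1))) * M :=
          sum_le_sum hb
      _ = 2 * (∑ q ∈ P, (m q : ℝ) * (2 / (J q * e q)) ^ (2 * (m q - 1))) * M := by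
          rw [mul_sum, sum_mul]
      _ ≤ 2 * (ε / 4) * M := by
          refine mul_le_mul_of_nonneg_right ?_ hM0
          linarith
      _ = ε / 2 * M := by ring
  rw [hXs]
  have h2 : (0.6725 - ε) * M = (0.6725 - ε / 2) * M - ε / 2 * M := by ring
  linarith

end Pool.Agent.J4.H50.Kl
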