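import Pool.Agent.J4.H50.Kl4

set_option autoImplicit false

/-!
# Tuples of simple zeros in the translates of a set, over a Bohr set
-/

namespace Pool.Agent.J4.H50.Kl

open Finset Complex MeasureTheory
open Pool.Agent.J4.H50.Kr
open Pool.Agent.Results.MP_6bc78b_nt.SimpleZerosEveryWeight (simpleZeros allZeros mult R main
  simpleZeros_finite)

/-- the parameters -/
lemma params (n₀ : ℕ) {δ T : ℝ} (_hδ : 0 < δ) (hT1 : 1 ≤ T) (P : Finset ℕ)
    (hP : ∀ p ∈ P, p.Prime) (e : ℕ → ℝ) (he : ∀ p ∈ P, 0 < e p ∧ e p ≤ 1)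
    (hlen0 : (1 + Real.log P.card) * ∑ p ∈ P, Real.log p / e p ≤
      δ / (4 * (5 + n₀)) * Real.log T) :
    ∃ J m : ℕ → ℕ, (∀ p ∈ P, 1 ≤ J p ∧ 1 ≤ m p ∧ 0 < e p) ∧
      ∏ p ∈ P, (p : ℝ) ^ (m p * (J p - 1)) ≤ T ^ δ ∧
      ∑ p ∈ P, (m p : ℝ) * (2 / (J p * e p)) ^ (2 * (m p - 1)) ≤ 1 / (4 * 2 ^ n₀) ∧
      ∀ p ∈ P, e p / (5 * (5 + n₀) * (1 + Real.log P.card)) ≤ 1 / ((m p : ℝ) * J p) := by
  have hTpos : 0 < T := by linarith
  have hl0 : 0 ≤ Real.log T := Real.log_nonneg hT1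
  set a : ℝ := Real.log P.card with ha
  have ha0 : 0 ≤ a := Real.log_natCast_nonneg _
  set J : ℕ → ℕ := fun p => ⌈4 / e p⌉₊ with hJ
  set m : ℕ := ⌈2 * a⌉₊ + 4 + n₀ with hm
  have hn₀ : (0 : ℝ) ≤ n₀ := Nat.cast_nonneg _
  have hm1 : 2 * a + 4 + n₀ ≤ m := by
    rw [hm]
    push_cast
    linarith [Nat.le_ceil (2 * a)]
  have hm2 : (m : ℝ) ≤ (5 + n₀) * (1 + a) := by
    rw [hm]
    push_cast
    nlinarith [Nat.ceil_lt_add_one (show 0 ≤ 2 * a by positivity)]
  have hJ0 : ∀ p ∈ P, 4 / e p ≤ J p ∧ 1 ≤ J p ∧ ((J p - 1 : ℕ) : ℝ) ≤ 4 / e p ∧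
      (J p : ℝ) * e p ≤ 5 := by
    intro p hp
    obtain ⟨he0, he1⟩ := he p hp
    have hJ1 : 4 / e p ≤ J p := Nat.le_ceil _
    have h4e : 4 ≤ 4 / e p := by
      rw [le_div_iff₀ he0]
      linarith
    have hJ2 : (J p : ℝ) < 4 / e p + 1 := Nat.ceil_lt_add_one (by positivity)
    have hJpos : 1 ≤ J p := by
      have : (1 : ℝ) ≤ J p := by linarith
      exact_mod_cast this
    refine ⟨hJ1, hJpos, ?_, ?_⟩
    · rw [Nat.cast_sub hJpos]
      push_cast
      linarith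
    · have h2 : (J p : ℝ) * e p ≤ (4 / e p + 1) * e p := mul_le_mul_of_nonneg_right hJ2.le he0.le
      have h3 : (4 / e p + 1) * e p = 4 + e p := by field_simp
      linarith
  have hlogp : ∀ p ∈ P, 0 ≤ Real.log (p : ℝ) := fun p _ => Real.log_natCast_nonneg _
  have hm4 : 1 ≤ m := by
    rw [hm]
    omega
  refine ⟨J, fun _ => m, fun p hp => ⟨(hJ0 p hp).2.1, hm4, (he p hp).1⟩, ?_, ?_, ?_⟩
  · -- the length
    rw [len_exp P hP (fun p => m * (J p - 1)), Real.rpow_def_of_pos hTpos]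
    apply Real.exp_le_exp.2
    push_cast
    calc ∑ p ∈ P, (m : ℝ) * ((J p - 1 : ℕ) : ℝ) * Real.log p ≤
          ∑ p ∈ P, (4 * (5 + n₀)) * (1 + a) * (Real.log p / e p) := by
          refine sum_le_sum fun p hp => ?_
          have h1 : (m : ℝ) * ((J p - 1 : ℕ) : ℝ) ≤ (5 + n₀) * (1 + a) * (4 / e p) :=
            mul_le_mul hm2 (hJ0 p hp).2.2.1 (Nat.cast_nonneg _) (by positivity)
          calc _ ≤ (5 + n₀) * (1 + a) * (4 / e p) * Real.log p :=
                mul_le_mul_of_nonneg_right h1 (hlogp p hp)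
            _ = _ := by ring
      _ = (4 * (5 + n₀)) * ((1 + a) * ∑ p ∈ P, Real.log p / e p) := by rw [← mul_sum]; ring
      _ ≤ (4 * (5 + n₀)) * (δ / (4 * (5 + n₀)) * Real.log T) :=
          mul_le_mul_of_nonneg_left hlen0 (by positivity)
      _ = Real.log T * δ := by field_simp
  · -- the sum
    rcases P.eq_empty_or_nonempty with hPe | hPne
    · rw [hPe, sum_empty]
      positivity
    have hc1 : (1 : ℝ) ≤ P.card := by exact_mod_cast hPne.card_pos
    have hone : ∀ p ∈ P, (m : ℝ) * (2 / ((J p : ℝ) * e p)) ^ (2 * (m - 1)) ≤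
        1 / (4 * 2 ^ n₀ * P.card) := by
      intro p hp
      obtain ⟨he0, he1⟩ := he p hp
      obtain ⟨hJ1, hJpos, -, -⟩ := hJ0 p hp
      have h2 : 2 / ((J p : ℝ) * e p) ≤ 1 / 2 := by
        have : 4 ≤ (J p : ℝ) * e p := by
          rw [div_le_iff₀ he0] at hJ1
          exact hJ1
        rw [div_le_div_iff₀ (by linarith) (by norm_num)]
        linarith
      have h3 : (2 / ((J p : ℝ) * e p)) ^ (2 * (m - 1)) ≤ (1 / 2) ^ (2 * (m - 1)) :=
        pow_le_pow_left₀ (by positivity) h2 _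
      have h4 : (m : ℝ) ≤ 2 ^ m := by exact_mod_cast (Nat.lt_two_pow_self).le
      have h5 : (16 : ℝ) * 2 ^ n₀ * P.card ≤ 2 ^ m := by
        have h6 : (2 : ℝ) ^ m = Real.exp (m * Real.log 2) := by
          rw [Real.exp_nat_mul, Real.exp_log (by norm_num)]
        have h7 : (16 : ℝ) * 2 ^ n₀ * P.card = Real.exp (4 * Real.log 2 + n₀ * Real.log 2 + a) := by
          rw [Real.exp_add, Real.exp_add, ha, Real.exp_log (by linarith),
            show (4 : ℝ) * Real.log 2 = ((4 : ℕ) : ℝ) * Real.log 2 by norm_num,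
            Real.exp_nat_mul, Real.exp_nat_mul, Real.exp_log (by norm_num)]
          norm_num
        rw [h6, h7]
        apply Real.exp_le_exp.2
        have h8 := Real.log_two_gt_d9
        have h9 : (2 * a + 4 + n₀) * Real.log 2 ≤ m * Real.log 2 :=
          mul_le_mul_of_nonneg_right hm1 (by linarith)
        nlinarith
      have h5' : (0 : ℝ) < 16 * 2 ^ n₀ * P.card := by positivity
      calc (m : ℝ) * (2 / ((J p : ℝ) * e p)) ^ (2 * (m - 1)) ≤ 2 ^ m * (1 / 2) ^ (2 * (m - 1)) :=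
            mul_le_mul h4 h3 (by positivity) (by positivity)
        _ = 4 / 2 ^ m := by
            obtain ⟨k, hk⟩ : ∃ k, m = k + 1 := ⟨m - 1, by omega⟩
            rw [hk, Nat.add_sub_cancel, one_div, inv_pow, pow_mul, pow_succ]
            norm_num
            rw [show (4 : ℝ) ^ k = 2 ^ k * 2 ^ k by rw [← mul_pow]; norm_num]
            field_simp
            norm_num
        _ ≤ 4 / (16 * 2 ^ n₀ * P.card) := div_le_div_of_nonneg_left (by norm_num) h5' h5
        _ = 1 / (4 * 2 ^ n₀ * P.card) := by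
            field_simp
            norm_num
    refine (sum_le_sum hone).trans ?_
    rw [sum_const, nsmul_eq_mul]
    have : (P.card : ℝ) * (1 / (4 * 2 ^ n₀ * P.card)) = 1 / (4 * 2 ^ n₀) := by field_simp
    exact this.le
  · intro p hp
    obtain ⟨he0, he1⟩ := he p hp
    obtain ⟨hJ1, hJpos, -, hJ5⟩ := hJ0 p hp
    have hJr : (0 : ℝ) < J p := by exact_mod_cast hJpos
    have hmr : (0 : ℝ) < m := by linarith
    rw [div_le_div_iff₀ (by positivity) (by positivity), one_mul]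
    calc e p * ((m : ℝ) * J p) = (m : ℝ) * ((J p : ℝ) * e p) := by ring
      _ ≤ ((5 + n₀) * (1 + a)) * 5 := mul_le_mul hm2 hJ5 (by positivity) (by positivity)
      _ = 5 * (5 + n₀) * (1 + a) := by ring

lemma V_cont (J : ℕ → ℕ) (z : ℕ → ℂ) {p : ℕ} (hp : 0 < p) : Continuous (V J z p) := by
  unfold V
  have hp0 : (p : ℂ) ≠ 0 := by exact_mod_cast hp.ne'
  have h1 : Continuous fun t : ℝ => (p : ℂ) ^ (-(I * (t : ℂ))) := by
    have h2 : (fun t : ℝ => (p : ℂ) ^ (-(I * (t : ℂ)))) =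
        fun t : ℝ => cexp (Complex.log p * (-(I * t))) := by
      funext t
      exact Complex.cpow_def_of_ne_zero hp0 _
    rw [h2]
    fun_prop
  refine (continuous_norm.comp (continuous_finsetSum _ fun i _ => ?_)).pow 2
  exact (continuous_const.mul h1).pow i

lemma bohr_open (P : Finset ℕ) (hP : ∀ p ∈ P, p.Prime) (e : ℕ → ℝ) (z : ℕ → ℂ) :
    IsOpen {t : ℝ | ∀ p ∈ P, ‖(p : ℂ) ^ (I * t) - z p‖ < e p} := by
  have : {t : ℝ | ∀ p ∈ P, ‖(p : ℂ) ^ (I * t) - z p‖ < e p} =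
      ⋂ p ∈ P, {t : ℝ | ‖(p : ℂ) ^ (I * t) - z p‖ < e p} := by
    ext t
    simp
  rw [this]
  refine isOpen_biInter_finset fun p hp => ?_
  have hp0 : (p : ℂ) ≠ 0 := by exact_mod_cast (hP p hp).ne_zero
  have h1 : Continuous fun t : ℝ => (p : ℂ) ^ (I * (t : ℂ)) := by
    have h2 : (fun t : ℝ => (p : ℂ) ^ (I * (t : ℂ))) =
        fun t : ℝ => cexp (Complex.log p * (I * t)) := by
      funext t
      exact Complex.cpow_def_of_ne_zero hp0 _
    rw [h2]
    fun_prop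
  exact isOpen_lt (continuous_norm.comp (h1.sub continuous_const)) continuous_const

/-- **tuples over Bohr sets** -/
theorem bohr_tuples (k : ℕ) (hk : k ≠ 0) (Λ : ℝ) (hΛ0 : 0 < Λ) (hΛ : (k : ℝ) - 1 < 0.6725 * Λ) :
    ∃ c T₀ : ℝ, 0 < c ∧ 3 ≤ T₀ ∧ ∀ T : ℝ, T₀ ≤ T →
    ∀ K : ℝ, T ^ (1 - c) ≤ K → K ≤ T / 2 →
    ∀ P : Finset ℕ, (∀ p ∈ P, p.Prime) → ∀ e : ℕ → ℝ, (∀ p ∈ P, 0 < e p ∧ e p ≤ 1) →
    (1 + Real.log P.card) * ∑ p ∈ P, Real.log p / e p ≤ c * Real.log T →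
    ∀ z : ℕ → ℂ, (∀ p, ‖z p‖ = 1) →
    ∀ U : Set ℝ, MeasurableSet U → U ⊆ Set.Icc 0 T →
    volume U = ENNReal.ofReal (2 * Real.pi * Λ / Real.log T) →
    c * (K * Real.log T) * ∏ p ∈ P, (c * e p / (1 + Real.log P.card)) ≤
      ({x : Fin k → ℝ | Function.Injective x ∧ (∀ j, x j ∈ simpleZeros T (3 * T)) ∧
        ∃ t : ℝ, T < t ∧ t ≤ T + K ∧ (∀ j, x j - t ∈ U) ∧
          ∀ p ∈ P, ‖(p : ℂ) ^ (I * t) - z p‖ < e p}.ncard : ℝ) := by
  classical
  -- the choice of ε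
  obtain ⟨ε, hε, hε1, hεq⟩ : ∃ ε : ℝ, 0 < ε ∧ ε ≤ 1 / 4 ∧
      (k : ℝ) - 1 < (0.6725 - ε) * Λ / (1 + ε) := by
    have h1 : Filter.Tendsto (fun ε : ℝ => (0.6725 - ε) * Λ / (1 + ε)) (nhds 0)
        (nhds ((0.6725 - 0) * Λ / (1 + 0))) := by
      refine Filter.Tendsto.div ?_ ?_ (by norm_num)
      · exact (tendsto_const_nhds.sub Filter.tendsto_id).mul_const _
      · exact tendsto_const_nhds.add Filter.tendsto_id
    have h2 : (k : ℝ) - 1 < (0.6725 - 0) * Λ / (1 + 0) := by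
      rw [sub_zero, add_zero, div_one]
      exact hΛ
    have h3 := (h1.eventually_const_lt h2).and
      (Iic_mem_nhds (show (0 : ℝ) < 1 / 4 by norm_num))
    have h4 : ∀ᶠ ε : ℝ in nhdsWithin 0 (Set.Ioi 0),
        ((k : ℝ) - 1 < (0.6725 - ε) * Λ / (1 + ε) ∧ ε ∈ Set.Iic (1 / 4 : ℝ)) ∧ 0 < ε :=
      (h3.filter_mono nhdsWithin_le_nhds).and self_mem_nhdsWithin
    obtain ⟨ε, ⟨h5, h6⟩, h7⟩ := h4.exists
    exact ⟨ε, h7, h6, h5⟩
  set q : ℝ := (0.6725 - ε) * Λ / (1 + ε) with hq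
  set D : ℝ := (descPochhammer ℝ k).eval q with hD
  have hD0 : 0 < D := descPochhammer_pos hεq
  obtain ⟨n₀, hn₀⟩ : ∃ n₀ : ℕ, (1 / 2 : ℝ) ^ n₀ < ε := exists_pow_lt_of_lt_one hε (by norm_num)
  have hn0r : (0 : ℝ) ≤ n₀ := Nat.cast_nonneg _
  obtain ⟨δ', T₁, hδ', hT₁, hgen⟩ := general2 ε hε (by linarith)
  obtain ⟨δ1, hδ1, hδ11, hδ1δ⟩ : ∃ δ1 : ℝ, 0 < δ1 ∧ δ1 ≤ 1 / 8 ∧ δ1 ≤ δ' :=
    ⟨min (1 / 8) δ', lt_min (by norm_num) hδ', min_le_left _ _, min_le_right _ _⟩
  obtain ⟨T₂, hT₂1, hT₂⟩ := ev_pow (δ1 / 2) (by positivity) (max 2 (2 / ε))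
  have hpi := Real.pi_pos
  obtain ⟨c, hc0, hc1, hc2, hc3⟩ : ∃ c : ℝ, 0 < c ∧ c ≤ (δ1 / 2) / (4 * (5 + n₀)) ∧
      c ≤ D / (2 * Real.pi * Λ) ∧ c ≤ 1 / (5 * (5 + n₀)) :=
    ⟨min ((δ1 / 2) / (4 * (5 + n₀))) (min (D / (2 * Real.pi * Λ)) (1 / (5 * (5 + n₀)))),
      lt_min (by positivity) (lt_min (by positivity) (by positivity)), min_le_left _ _,
      (min_le_right _ _).trans (min_le_left _ _), (min_le_right _ _).trans (min_le_right _ _)⟩
  have hcδ : c ≤ δ1 / 2 := by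
    refine hc1.trans (div_le_self (by positivity) ?_)
    linarith
  refine ⟨c, max (max T₁ T₂) 3, hc0, le_max_right _ _, ?_⟩
  intro T hTT K hK1 hK2 P hP e he hlen z hz U hUm hUT hUv
  have hTT1 : T₁ ≤ T := ((le_max_left _ _).trans (le_max_left _ _)).trans hTT
  have hTT2 := hT₂ T (((le_max_right _ _).trans (le_max_left _ _)).trans hTT)
  have hT3 : 3 ≤ T := (le_max_right _ _).trans hTT
  have hT0 : 0 < T := by linarith
  have hT : 1 ≤ T := by linarith
  have hlog : 0 < Real.log T := Real.log_pos (by linarith)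
  have h2T : 2 ≤ T ^ (δ1 / 2) := (le_max_left _ _).trans hTT2
  have hεT : 2 / ε ≤ T ^ (δ1 / 2) := (le_max_right _ _).trans hTT2
  have hK0 : 0 < K := lt_of_lt_of_le (by positivity) hK1
  obtain ⟨J, m, hJme, hprod, hsum, hJm⟩ := params n₀ (show 0 < δ1 / 2 by positivity) hT P hP e he
    (hlen.trans (mul_le_mul_of_nonneg_right hc1 hlog.le))
  have hsum' : ∑ p ∈ P, (m p : ℝ) * (2 / (J p * e p)) ^ (2 * (m p - 1)) ≤ ε / 4 := by
    refine hsum.trans ?_
    have h1 : (1 : ℝ) / (4 * 2 ^ n₀) = (1 / 2) ^ n₀ / 4 := by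
      rw [div_pow, one_pow]
      field_simp
    rw [h1]
    linarith
  set W : ℝ := ∏ p ∈ P, nn (J p) (m p) with hW
  set G : ℝ → ℝ := GB P J m e z with hG
  have hG0 : ∀ t, 0 ≤ G t := GB_nonneg P J m e z
  have hVpos : ∀ p t, 0 ≤ V J z p t := fun p t => V_nonneg J z p t
  have hprodV : ∀ t, 0 ≤ ∏ p ∈ P, V J z p t ^ m p :=
    fun t => prod_nonneg fun p _ => pow_nonneg (hVpos p t) _
  have hGle : ∀ t, G t ≤ ∏ p ∈ P, V J z p t ^ m p := by
    intro t
    rw [hG]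
    unfold GB
    split_ifs
    · exact le_rfl
    · exact hprodV t
  set Mx : ℝ := ∏ p ∈ P, (J p : ℝ) ^ (2 * m p) with hMx
  have hMx0 : 0 < Mx := prod_pos fun p hp => by
    have := (hJme p hp).1
    positivity
  have hGM : ∀ t, G t ≤ Mx := by
    intro t
    refine (hGle t).trans (prod_le_prod (fun p _ => pow_nonneg (hVpos p t) _) fun p hp => ?_)
    rw [pow_mul]
    exact pow_le_pow_left₀ (hVpos p t) (V_le J z hz p (hP p hp).pos t) _
  set I0 : Set ℝ := Set.Ioc T (T + K) with hI0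
  have hcont : Continuous fun t => ∏ p ∈ P, V J z p t ^ m p :=
    continuous_finsetProd _ fun p hp => (V_cont J z (hP p hp).pos).pow _
  have hVi : IntegrableOn (fun t => ∏ p ∈ P, V J z p t ^ m p) I0 :=
    (hcont.integrableOn_Icc (a := T) (b := T + K)).mono_set Set.Ioc_subset_Icc_self
  have hGind : G = {t : ℝ | ∀ p ∈ P, ‖(p : ℂ) ^ (I * t) - z p‖ < e p}.indicator
      (fun t => ∏ p ∈ P, V J z p t ^ m p) := by
    funext t
    rw [hG]
    unfold GB
    by_cases h : ∀ p ∈ P, ‖(p : ℂ) ^ (I * t) - z p‖ < e p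
    · rw [if_pos h, Set.indicator_of_mem (by exact h)]
    · rw [if_neg h, Set.indicator_of_notMem (by exact h)]
  have hGi : IntegrableOn G I0 := by
    rw [hGind]
    exact hVi.indicator (bohr_open P hP e z).measurableSet
  have hUf : volume U ≠ ⊤ := by rw [hUv]; exact ENNReal.ofReal_ne_top
  have hUr : (volume U).toReal = 2 * Real.pi * Λ / Real.log T := by
    rw [hUv, ENNReal.toReal_ofReal]
    positivity
  -- W is positive
  have hWlow : (∏ p ∈ P, (1 / ((m p : ℝ) * J p))) * Mx ≤ W := by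
    rw [hW, hMx, ← prod_mul_distrib]
    refine prod_le_prod (fun p _ => by positivity) fun p hp => ?_
    obtain ⟨hJ1, hm1, -⟩ := hJme p hp
    have h1 : (0 : ℝ) < (m p : ℝ) * J p := by
      have : (0 : ℝ) < m p := by exact_mod_cast hm1
      have : (0 : ℝ) < J p := by exact_mod_cast hJ1
      positivity
    rw [one_div, inv_mul_le_iff₀ h1]
    exact nn_ge _ _ hJ1 hm1
  have hprodpos : 0 < ∏ p ∈ P, (1 / ((m p : ℝ) * J p)) := prod_pos fun p hp => by
    obtain ⟨hJ1, hm1, -⟩ := hJme p hp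
    have : (0 : ℝ) < m p := by exact_mod_cast hm1
    have : (0 : ℝ) < J p := by exact_mod_cast hJ1
    positivity
  have hW0 : 0 < W := lt_of_lt_of_le (mul_pos hprodpos hMx0) hWlow
  -- the first moments
  set a : ℝ := (0.6725 - ε) * (K / (2 * Real.pi) * Real.log T * W) with ha
  have hfm : a * (volume U).toReal ≤ ∫ t in I0, G t * (NS T hT U t : ℝ) := by
    refine first_moment (XS T hT) id (fun _ => 1) hUm measurableSet_Ioc hGi hUf fun u hu => ?_
    have hu' := hUT hu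
    have hK1' : (T + u) ^ (1 - δ') ≤ K := by
      refine le_trans ?_ hK1
      refine le_trans ?_ (pow_two hT hδ1 (by linarith) hcδ h2T hu'.1 hu'.2)
      exact Real.rpow_le_rpow_of_exponent_le (by linarith [hu'.1]) (by linarith)
    have hlen' : ∏ p ∈ P, (p : ℝ) ^ (m p * (J p - 1)) ≤ (T + u) ^ δ' := by
      refine hprod.trans ?_
      calc T ^ (δ1 / 2) ≤ T ^ δ' := Real.rpow_le_rpow_of_exponent_le hT (by linarith)
        _ ≤ (T + u) ^ δ' := Real.rpow_le_rpow hT0.le (by linarith [hu'.1]) hδ'.le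
    have h1 := hgen (T + u) (by linarith [hu'.1]) K hK1' (by linarith [hu'.1]) P hP J m e hJme
      hlen' hsum' (zt z u) (zt_norm z hz u)
    have h2 : ∀ t, GB P J m e (zt z u) t = G (t - u) := fun t => GB_zt P hP J m e z u t
    simp only [h2] at h1
    rw [sum_shift_S hT hu'.1 hu'.2 hK2 G] at h1
    refine le_trans ?_ h1
    rw [ha]
    refine mul_le_mul_of_nonneg_left ?_ (by linarith)
    refine mul_le_mul_of_nonneg_right ?_ hW0.le
    refine mul_le_mul_of_nonneg_left ?_ (by positivity)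
    exact Real.log_le_log hT0 (by linarith [hu'.1])
  -- the mean square
  set b : ℝ := (1 + ε) * (K * W) with hb
  have hb0 : 0 < b := by positivity
  have hms : ∫ t in I0, G t ≤ b := by
    have h0 : ∫ t in I0, G t ≤ ∫ t in I0, ∏ p ∈ P, V J z p t ^ m p :=
      integral_mono hGi hVi hGle
    refine h0.trans ?_
    have h1 := mean_sq (SS P J m) (co P J m z) (SS_le P hP J m _ hprod) T hK0.le
    rw [intervalIntegral.integral_of_le (by linarith)] at h1
    have h2 : ∀ t : ℝ, ‖∑ n ∈ SS P J m, co P J m z n * (n : ℂ) ^ (-(I * t))‖ ^ 2 =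
        ∏ p ∈ P, V J z p t ^ m p := norm_R P hP J m z
    simp only [h2] at h1
    have h3 : ∑ n ∈ SS P J m, ‖co P J m z n‖ ^ 2 = W := norm_co P hP J m z hz
    rw [h3] at h1
    refine h1.trans ?_
    rw [hb, ← mul_assoc]
    refine mul_le_mul_of_nonneg_right ?_ hW0.le
    have h2 : 2 * (T ^ (δ1 / 2)) ^ 2 ≤ ε * K := by
      have h3 : 2 ≤ ε * T ^ (δ1 / 2) := by
        rw [div_le_iff₀ hε] at hεT
        linarith
      have h4 : (T ^ (δ1 / 2)) ^ 2 * T ^ (δ1 / 2) ≤ K := by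
        refine le_trans ?_ hK1
        rw [← Real.rpow_natCast, ← Real.rpow_mul hT0.le, ← Real.rpow_add hT0]
        refine Real.rpow_le_rpow_of_exponent_le hT ?_
        push_cast
        linarith
      have h5 : 0 ≤ (T ^ (δ1 / 2)) ^ 2 := by positivity
      calc 2 * (T ^ (δ1 / 2)) ^ 2 ≤ (ε * T ^ (δ1 / 2)) * (T ^ (δ1 / 2)) ^ 2 :=
            mul_le_mul_of_nonneg_right h3 h5
        _ = ε * ((T ^ (δ1 / 2)) ^ 2 * T ^ (δ1 / 2)) := by ring
        _ ≤ ε * K := mul_le_mul_of_nonneg_left h4 hε.le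
    linarith
  have hratio : a * (volume U).toReal / b = q := by
    rw [hUr, ha, hb, hq]
    field_simp
  have hjen := jensen hGi hG0 (NU_meas (XS T hT) id (fun _ => 1) hUm) _
    (NU_le (XS T hT) id (fun _ => 1) U) hk hb0 hms hfm (by rw [hratio]; exact hεq.le)
  rw [hratio] at hjen
  -- the tuples
  set E : Set (Fin k → ℝ) := {x : Fin k → ℝ | Function.Injective x ∧
    (∀ j, x j ∈ simpleZeros T (3 * T)) ∧ ∃ t : ℝ, T < t ∧ t ≤ T + K ∧ (∀ j, x j - t ∈ U) ∧
      ∀ p ∈ P, ‖(p : ℂ) ^ (I * t) - z p‖ < e p} with hE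
  have hEf : E.Finite := by
    have h1 : {x : Fin k → ℝ | ∀ j, x j ∈ simpleZeros T (3 * T)}.Finite :=
      Set.Finite.pi' fun _ => simpleZeros_finite T (3 * T) hT
    exact h1.subset fun x hx j => hx.2.1 j
  have htup := tuples (XS T hT) id hUm measurableSet_Ioc hGi hG0 hUf hk hGM E hEf (by
    intro x hx1 hx2 t ht hGt hxU
    refine ⟨hx1, fun j => ?_, t, ht.1, ht.2, hxU, ?_⟩
    · have h1 := hx2 j
      unfold XS at h1
      rwa [Set.Finite.mem_toFinset] at h1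
    · by_contra hcon
      apply hGt
      rw [hG]
      unfold GB
      rw [if_neg hcon])
  have hall : b * D ≤ E.ncard * (Mx * (2 * Real.pi * Λ / Real.log T)) := by
    rw [← hUr]
    exact hjen.trans htup
  -- the end
  have hfin : K * Real.log T * (D / (2 * Real.pi * Λ)) * ∏ p ∈ P, (1 / ((m p : ℝ) * J p)) ≤
      E.ncard := by
    have h1 : (K * ((∏ p ∈ P, (1 / ((m p : ℝ) * J p))) * Mx)) * D ≤ b * D := by
      refine mul_le_mul_of_nonneg_right ?_ hD0.le
      rw [hb]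
      have h2 : K * ((∏ p ∈ P, (1 / ((m p : ℝ) * J p))) * Mx) ≤ K * W := by
        refine mul_le_mul_of_nonneg_left ?_ hK0.le
        exact hWlow
      have h3 : 0 ≤ K * W := by positivity
      nlinarith
    have h4 := h1.trans hall
    have h5 : 0 < Mx * (2 * Real.pi * Λ / Real.log T) := by positivity
    refine le_of_mul_le_mul_right ?_ h5
    refine le_trans (le_of_eq ?_) h4
    field_simp
  refine le_trans ?_ hfin
  rw [mul_comm c]
  have h6 : ∏ p ∈ P, (c * e p / (1 + Real.log P.card)) ≤ ∏ p ∈ P, (1 / ((m p : ℝ) * J p)) := by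
    refine prod_le_prod (fun p hp => ?_) fun p hp => ?_
    · have h1 := (he p hp).1
      have h2 : 0 ≤ Real.log (P.card : ℝ) := Real.log_natCast_nonneg _
      positivity
    · refine le_trans ?_ (hJm p hp)
      have h1 := (he p hp).1
      have h2 : 0 ≤ Real.log (P.card : ℝ) := Real.log_natCast_nonneg _
      rw [div_le_div_iff₀ (by positivity) (by positivity)]
      have h3 : c * (5 * (5 + n₀)) ≤ 1 := by
        rwa [le_div_iff₀ (by positivity)] at hc3
      calc c * e p * (5 * (5 + n₀) * (1 + Real.log P.card)) =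
            (c * (5 * (5 + n₀))) * (e p * (1 + Real.log P.card)) := by ring
        _ ≤ 1 * (e p * (1 + Real.log P.card)) :=
            mul_le_mul_of_nonneg_right h3 (by positivity)
        _ = _ := one_mul _
  have h7 : 0 ≤ ∏ p ∈ P, (c * e p / (1 + Real.log P.card)) := prod_nonneg fun p hp => by
    have h1 := (he p hp).1
    have h2 : 0 ≤ Real.log (P.card : ℝ) := Real.log_natCast_nonneg _
    positivity
  calc K * Real.log T * c * ∏ p ∈ P, (c * e p / (1 + Real.log P.card)) ≤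
        K * Real.log T * (D / (2 * Real.pi * Λ)) * ∏ p ∈ P, (c * e p / (1 + Real.log P.card)) := by
        refine mul_le_mul_of_nonneg_right ?_ h7
        exact mul_le_mul_of_nonneg_left hc2 (by positivity)
    _ ≤ _ := mul_le_mul_of_nonneg_left h6 (by positivity)

end Pool.Agent.J4.H50.Kl
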