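import Pool.Agent.J4.H50.Kl5

set_option autoImplicit false

/-!
# Clusters of simple zeros in Bohr sets
-/

namespace Pool.Agent.J4.H50.Kl

open Finset Complex MeasureTheory Filter Topology
open Pool.Agent.J4.H50.Kr
open Pool.Agent.Results.MP_6bc78b_nt.SimpleZerosEveryWeight (simpleZeros allZeros mult R main
  simpleZeros_finite)

lemma dist_pow {p : ℕ} (hp : 0 < p) (x t : ℝ) :
    ‖(p : ℂ) ^ (I * x) - (p : ℂ) ^ (I * t)‖ ≤ |x - t| * Real.log p := by
  have hp0 : (p : ℂ) ≠ 0 := by exact_mod_cast hp.ne'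
  have h1 : (p : ℂ) ^ (I * x) - (p : ℂ) ^ (I * t) =
      (p : ℂ) ^ (I * t) * (cexp (I * ((Real.log p * (x - t) : ℝ) : ℂ)) - 1) := by
    have h2 : cexp (I * ((Real.log p * (x - t) : ℝ) : ℂ)) = (p : ℂ) ^ (I * x - I * t) := by
      rw [Complex.cpow_def_of_ne_zero hp0, ← Complex.natCast_log]
      congr 1
      push_cast
      ring
    rw [h2, mul_sub, ← Complex.cpow_add _ _ hp0, mul_one]
    congr 2
    ring
  rw [h1, norm_mul, Complex.norm_natCast_cpow_of_pos hp]
  have h3 := Real.norm_exp_I_mul_ofReal_sub_one_le (x := Real.log p * (x - t))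
  rw [Real.norm_eq_abs, abs_mul, abs_of_nonneg (Real.log_natCast_nonneg p)] at h3
  simp only [mul_re, I_re, ofReal_re, zero_mul, I_im, ofReal_im, mul_zero, sub_self, Real.rpow_zero,
    one_mul]
  linarith [h3]

/-- **clusters in Bohr sets** -/
theorem clusters (k : ℕ) (hk : k ≠ 0) (Λ : ℝ) (hΛ0 : 0 < Λ) (hΛ : (k : ℝ) - 1 < 0.6725 * Λ) :
    ∃ c T₀ : ℝ, 0 < c ∧ 3 ≤ T₀ ∧ ∀ T : ℝ, T₀ ≤ T →
    ∀ K : ℝ, T ^ (1 - c) ≤ K → K ≤ T / 2 →
    ∀ P : Finset ℕ, (∀ p ∈ P, p.Prime) → ∀ e : ℕ → ℝ, (∀ p ∈ P, 0 < e p ∧ e p ≤ 1) →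
    (1 + Real.log P.card) * ∑ p ∈ P, Real.log p / e p ≤ c * Real.log T →
    ∀ z : ℕ → ℂ, (∀ p, ‖z p‖ = 1) →
    c * (K * Real.log T) * ∏ p ∈ P, (c * e p / (1 + Real.log P.card)) ≤
      ({x : Fin k → ℝ | Function.Injective x ∧ (∀ j, x j ∈ simpleZeros T (T + K)) ∧
        (∀ i j, |x i - x j| ≤ 2 * Real.pi * Λ / Real.log T) ∧
          ∀ j, ∀ p ∈ P, ‖(p : ℂ) ^ (I * x j) - z p‖ < e p}.ncard : ℝ) := by
  classical
  obtain ⟨c', T₁, hc', hT₁, hB⟩ := bohr_tuples k hk Λ hΛ0 hΛ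
  have hpi := Real.pi_pos
  obtain ⟨c, hc0, hc1, hc2, hc4⟩ : ∃ c : ℝ, 0 < c ∧ c ≤ c' / 2 ∧ c ≤ 1 / (4 * Real.pi * Λ) ∧
      c ≤ 1 / 2 :=
    ⟨min (c' / 2) (min (1 / (4 * Real.pi * Λ)) (1 / 2)),
      lt_min (by positivity) (lt_min (by positivity) (by norm_num)), min_le_left _ _,
      (min_le_right _ _).trans (min_le_left _ _), (min_le_right _ _).trans (min_le_right _ _)⟩
  obtain ⟨T₂, hT₂1, hT₂⟩ := ev_pow (c' / 2) (by positivity) 2
  obtain ⟨T₄, hT₄1, hT₄⟩ := ev_pow (1 / 2) (by norm_num) 2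
  obtain ⟨T₃, hT₃⟩ := Filter.eventually_atTop.1
    (Real.tendsto_log_atTop.eventually_ge_atTop (2 * Real.pi * Λ))
  refine ⟨c, max (max T₁ (max T₂ T₄)) T₃, hc0,
    hT₁.trans ((le_max_left _ _).trans (le_max_left _ _)), ?_⟩
  intro T hTT K hK1 hK2 P hP e he hlen z hz
  have hTT1 : T₁ ≤ T := ((le_max_left _ _).trans (le_max_left _ _)).trans hTT
  have hTT2 := hT₂ T (((le_max_left _ _).trans ((le_max_right _ _).trans (le_max_left _ _))).trans hTT)
  have hTT4 := hT₄ T (((le_max_right _ _).trans ((le_max_right _ _).trans (le_max_left _ _))).trans hTT)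
  have hTT3 := hT₃ T ((le_max_right _ _).trans hTT)
  have hT3 : 3 ≤ T := hT₁.trans hTT1
  have hT0 : 0 < T := by linarith
  have hT : 1 ≤ T := by linarith
  have hlog : 0 < Real.log T := Real.log_pos (by linarith)
  set w : ℝ := 2 * Real.pi * Λ / Real.log T with hw
  have hw0 : 0 < w := by positivity
  have hw1 : w ≤ 1 := by
    rw [hw, div_le_one hlog]
    exact hTT3
  have hK2' : 2 ≤ K := by
    refine le_trans ?_ hK1
    refine hTT4.trans (Real.rpow_le_rpow_of_exponent_le hT ?_)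
    linarith
  have ha0 : 0 ≤ Real.log (P.card : ℝ) := Real.log_natCast_nonneg _
  have hlogp : ∀ p : ℕ, 0 ≤ Real.log (p : ℝ) := fun p => Real.log_natCast_nonneg _
  have hK' : T ^ (1 - c') ≤ K - w := by
    have h1 : K / 2 ≤ K - w := by linarith
    refine le_trans ?_ h1
    rw [le_div_iff₀ (by norm_num)]
    refine le_trans ?_ hK1
    calc T ^ (1 - c') * 2 ≤ T ^ (1 - c') * T ^ (c' / 2) :=
          mul_le_mul_of_nonneg_left hTT2 (by positivity)
      _ = T ^ (1 - c' / 2) := by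
          rw [← Real.rpow_add hT0]
          congr 1
          ring
      _ ≤ T ^ (1 - c) := Real.rpow_le_rpow_of_exponent_le hT (by linarith)
  have hlen' : (1 + Real.log P.card) * ∑ p ∈ P, Real.log p / (e p / 2) ≤ c' * Real.log T := by
    have h1 : ∑ p ∈ P, Real.log p / (e p / 2) = 2 * ∑ p ∈ P, Real.log p / e p := by
      rw [mul_sum]
      refine sum_congr rfl fun p hp => ?_
      have := (he p hp).1
      field_simp
    rw [h1]
    calc (1 + Real.log P.card) * (2 * ∑ p ∈ P, Real.log p / e p) =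
          2 * ((1 + Real.log P.card) * ∑ p ∈ P, Real.log p / e p) := by ring
      _ ≤ 2 * (c * Real.log T) := by linarith
      _ ≤ c' * Real.log T := by nlinarith
  have hmain := hB T hTT1 (K - w) hK' (by linarith) P hP (fun p => e p / 2)
    (fun p hp => ⟨by linarith [(he p hp).1], by linarith [(he p hp).2, (he p hp).1]⟩) hlen' z hz
    (Set.Icc 0 w) measurableSet_Icc (Set.Icc_subset_Icc_right (by linarith))
    (by rw [Real.volume_Icc, sub_zero])
  have hfin : {x : Fin k → ℝ | Function.Injective x ∧ (∀ j, x j ∈ simpleZeros T (T + K)) ∧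
      (∀ i j, |x i - x j| ≤ w) ∧ ∀ j, ∀ p ∈ P, ‖(p : ℂ) ^ (I * x j) - z p‖ < e p}.Finite := by
    have h1 : {x : Fin k → ℝ | ∀ j, x j ∈ simpleZeros T (T + K)}.Finite :=
      Set.Finite.pi' fun _ => simpleZeros_finite T (T + K) hT
    exact h1.subset fun x hx j => hx.2.1 j
  have hsub : {x : Fin k → ℝ | Function.Injective x ∧ (∀ j, x j ∈ simpleZeros T (3 * T)) ∧
        ∃ t : ℝ, T < t ∧ t ≤ T + (K - w) ∧ (∀ j, x j - t ∈ Set.Icc 0 w) ∧
          ∀ p ∈ P, ‖(p : ℂ) ^ (I * t) - z p‖ < e p / 2} ⊆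
      {x : Fin k → ℝ | Function.Injective x ∧ (∀ j, x j ∈ simpleZeros T (T + K)) ∧
      (∀ i j, |x i - x j| ≤ w) ∧ ∀ j, ∀ p ∈ P, ‖(p : ℂ) ^ (I * x j) - z p‖ < e p} := by
    rintro x ⟨hx1, hx2, t, ht1, ht2, hx3, hx4⟩
    refine ⟨hx1, fun j => ?_, fun i j => ?_, fun j p hp => ?_⟩
    · obtain ⟨h1, h2, h3⟩ := hx2 j
      refine ⟨h1, ?_, h3⟩
      linarith [(hx3 j).2]
    · rw [abs_le]
      constructor <;> linarith [(hx3 i).1, (hx3 i).2, (hx3 j).1, (hx3 j).2]
    · have hp0 : 0 < p := (hP p hp).pos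
      have he0 := (he p hp).1
      have h1 : Real.log p / e p ≤ c * Real.log T := by
        refine le_trans ?_ hlen
        have h2 : Real.log p / e p ≤ ∑ p ∈ P, Real.log p / e p :=
          single_le_sum (f := fun p : ℕ => Real.log p / e p)
            (fun q hq => div_nonneg (hlogp q) (he q hq).1.le) hp
        have h3 : 0 ≤ ∑ p ∈ P, Real.log (p : ℝ) / e p :=
          sum_nonneg fun q hq => div_nonneg (hlogp q) (he q hq).1.le
        nlinarith
      rw [div_le_iff₀ he0] at h1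
      have h4 : |x j - t| ≤ w := by
        rw [abs_of_nonneg (hx3 j).1]
        exact (hx3 j).2
      have h5 : ‖(p : ℂ) ^ (I * x j) - (p : ℂ) ^ (I * t)‖ ≤ e p / 2 := by
        refine (dist_pow hp0 (x j) t).trans ?_
        calc |x j - t| * Real.log p ≤ w * (c * Real.log T * e p) :=
              mul_le_mul h4 h1 (hlogp p) hw0.le
          _ = (2 * Real.pi * Λ * c) * e p := by
              rw [hw]
              field_simp
          _ ≤ 1 / 2 * e p := by
              refine mul_le_mul_of_nonneg_right ?_ he0.le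
              rw [le_div_iff₀ (by positivity)] at hc2
              linarith
          _ = e p / 2 := by ring
      calc ‖(p : ℂ) ^ (I * x j) - z p‖ ≤ ‖(p : ℂ) ^ (I * x j) - (p : ℂ) ^ (I * t)‖ +
            ‖(p : ℂ) ^ (I * t) - z p‖ := norm_sub_le_norm_sub_add_norm_sub _ _ _
        _ < e p / 2 + e p / 2 := add_lt_add_of_le_of_lt h5 (hx4 p hp)
        _ = e p := by ring
  refine le_trans ?_ (hmain.trans (by exact_mod_cast Set.ncard_le_ncard hsub hfin))
  have h7 : ∏ p ∈ P, (c * e p / (1 + Real.log P.card)) ≤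
      ∏ p ∈ P, (c' * (e p / 2) / (1 + Real.log P.card)) := by
    refine prod_le_prod (fun p hp => ?_) fun p hp => ?_
    · have h1 := (he p hp).1
      positivity
    · have h1 := (he p hp).1
      refine div_le_div_of_nonneg_right ?_ (by positivity)
      nlinarith
  have h8 : 0 ≤ ∏ p ∈ P, (c * e p / (1 + Real.log P.card)) := prod_nonneg fun p hp => by
    have h1 := (he p hp).1
    positivity
  refine mul_le_mul ?_ h7 h8 (mul_nonneg hc'.le (mul_nonneg (by linarith) hlog.le))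
  have h9 : K ≤ 2 * (K - w) := by linarith
  calc c * (K * Real.log T) ≤ (c' / 2) * (2 * (K - w) * Real.log T) := by
        refine mul_le_mul hc1 ?_ (by positivity) (by positivity)
        exact mul_le_mul_of_nonneg_right h9 hlog.le
    _ = c' * ((K - w) * Real.log T) := by ring

/-- all primes up to `c log T / log log T` -/
theorem clusters_all (k : ℕ) (hk : k ≠ 0) (Λ : ℝ) (hΛ0 : 0 < Λ) (hΛ : (k : ℝ) - 1 < 0.6725 * Λ) :
    ∀ ε η : ℝ, 0 < ε → 0 < η → ∃ c T₀ : ℝ, 0 < c ∧ ∀ T : ℝ, T₀ ≤ T →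
    ∀ K : ℝ, T ^ (1 - c) ≤ K → K ≤ T / 2 → ∀ z : ℕ → ℂ, (∀ p, ‖z p‖ = 1) →
    K * T ^ (-η) ≤ ({x : Fin k → ℝ | Function.Injective x ∧ (∀ j, x j ∈ simpleZeros T (T + K)) ∧
        (∀ i j, |x i - x j| ≤ 2 * Real.pi * Λ / Real.log T) ∧
          ∀ j, ∀ p : ℕ, p.Prime → (p : ℝ) ≤ c * Real.log T / Real.log (Real.log T) →
            ‖(p : ℂ) ^ (I * x j) - z p‖ < ε}.ncard : ℝ) := by
  classical
  intro ε₀ η hε₀ hη
  obtain ⟨e, he, he1, hee⟩ : ∃ ε : ℝ, 0 < ε ∧ ε ≤ 1 ∧ ε ≤ ε₀ :=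
    ⟨min ε₀ 1, lt_min hε₀ one_pos, min_le_right _ _, min_le_left _ _⟩
  obtain ⟨δ, T₀, hδ, hT₀1, h⟩ := clusters k hk Λ hΛ0 hΛ
  set c : ℝ := min (min (δ * e / 4) 1) δ with hc
  have hc0 : 0 < c := lt_min (lt_min (by positivity) (by norm_num)) hδ
  have hc1 : c ≤ 1 := (min_le_left _ _).trans (min_le_right _ _)
  have hcδ : c ≤ δ * e / 4 := (min_le_left _ _).trans (min_le_left _ _)
  have hcle : c ≤ δ := min_le_right _ _
  obtain ⟨T₁, hT₁⟩ := eventually_atTop.1 (growth (25 * δ * e) η (by positivity) hη c hc0)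
  obtain ⟨T₂, hT₂⟩ := eventually_atTop.1 (Real.tendsto_log_atTop.eventually_ge_atTop (1 / δ))
  obtain ⟨T₃, hT₃⟩ := eventually_atTop.1
    ((Real.tendsto_log_atTop.comp Real.tendsto_log_atTop).eventually_ge_atTop (δ * e))
  refine ⟨c, max (max T₀ T₁) (max T₂ T₃), hc0, ?_⟩
  intro T hT K hK1 hK2 z hz
  have hTT0 : T₀ ≤ T := ((le_max_left _ _).trans (le_max_left _ _)).trans hT
  have hT1 : 1 ≤ T := by linarith
  have hTpos : 0 < T := by linarith
  obtain ⟨g1, g2, g3, g4⟩ := hT₁ T (((le_max_right _ _).trans (le_max_left _ _)).trans hT)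
  have g5 := hT₂ T (((le_max_left _ _).trans (le_max_right _ _)).trans hT)
  have g6 : δ * e ≤ Real.log (Real.log T) :=
    hT₃ T (((le_max_right _ _).trans (le_max_right _ _)).trans hT)
  set l : ℝ := Real.log T with hl
  set ll : ℝ := Real.log l with hll
  have hl0 : 0 < l := by linarith
  have hll0 : 0 < ll := by linarith
  have hK0 : 0 ≤ K := le_trans (by positivity) hK1
  set y : ℝ := c * l / ll with hy
  have hy0 : 0 ≤ y := by linarith
  have hyl : y ≤ l := by
    rw [hy, div_le_iff₀ hll0]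
    nlinarith
  set P : Finset ℕ := PP ⌊y⌋₊ with hP
  have hPy : (P.card : ℝ) ≤ y := (PP_card_le _).trans (Nat.floor_le hy0)
  have h2P : 2 ∈ P := by
    rw [hP]
    unfold PP
    rw [mem_filter, mem_range]
    refine ⟨Nat.lt_succ_of_le (Nat.le_floor ?_), Nat.prime_two⟩
    push_cast
    exact g3
  have hP1 : (1 : ℝ) ≤ P.card := by exact_mod_cast card_pos.2 ⟨2, h2P⟩
  set a : ℝ := Real.log P.card with ha
  have ha0 : 0 ≤ a := Real.log_natCast_nonneg _
  have hall : a ≤ ll := Real.log_le_log (by linarith) (hPy.trans hyl)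
  have h1a : 1 + a ≤ 2 * ll := by linarith
  have hlog : ∑ p ∈ P, Real.log p / e ≤ y * 1.3864 / e := by
    rw [← Finset.sum_div]
    apply div_le_div_of_nonneg_right _ he.le
    have h1 := PP_prod ⌊y⌋₊ 1
    have h2 := len_exp (PP ⌊y⌋₊) (PP_prime _) (fun _ => 1)
    rw [h2, Real.exp_le_exp] at h1
    push_cast at h1
    simp only [one_mul, mul_one] at h1
    refine h1.trans ?_
    exact mul_le_mul_of_nonneg_right (Nat.floor_le hy0) (by norm_num)
  have hlen : (1 + a) * ∑ p ∈ P, Real.log p / e ≤ δ * l := by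
    have hs0 : 0 ≤ ∑ p ∈ P, Real.log (p : ℝ) / e :=
      sum_nonneg fun p _ => div_nonneg (Real.log_natCast_nonneg _) he.le
    calc (1 + a) * ∑ p ∈ P, Real.log p / e ≤ (2 * ll) * (y * 1.3864 / e) :=
          mul_le_mul h1a hlog hs0 (by positivity)
      _ = 2.7728 * c / e * l := by rw [hy]; field_simp; ring
      _ ≤ 4 * c / e * l := by
          apply mul_le_mul_of_nonneg_right _ hl0.le
          apply div_le_div_of_nonneg_right _ he.le
          linarith
      _ ≤ δ * l := by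
          apply mul_le_mul_of_nonneg_right _ hl0.le
          rw [div_le_iff₀ he]
          linarith
  have hmain := h T hTT0 K (by
      refine le_trans (Real.rpow_le_rpow_of_exponent_le hT1 ?_) hK1
      linarith) hK2 P (PP_prime _) (fun _ => e) (fun _ _ => ⟨he, he1⟩) hlen z hz
  rw [← ha, prod_const] at hmain
  have hnum : K * T ^ (-η) ≤ δ * (K * l) * (δ * e / (1 + a)) ^ P.card := by
    have h1 : T ^ (-η) ≤ (δ * e / (1 + a)) ^ P.card := by
      have h2 : (δ * e / (2 * ll)) ^ P.card ≤ (δ * e / (1 + a)) ^ P.card := by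
        apply pow_le_pow_left₀ (by positivity)
        exact div_le_div_of_nonneg_left (by positivity) (by positivity) h1a
      refine le_trans ?_ h2
      have h3 : (δ * e / (2 * ll)) = (50 / (25 * δ * e) * ll)⁻¹ := by
        field_simp
        norm_num
      rw [h3, inv_pow, Real.rpow_neg hTpos.le]
      apply inv_anti₀ (by positivity)
      have h5 : (1 : ℝ) ≤ 50 / (25 * δ * e) * ll := by
        rw [div_mul_eq_mul_div, le_div_iff₀ (by positivity)]
        nlinarith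
      calc (50 / (25 * δ * e) * ll) ^ P.card =
            Real.exp (P.card * Real.log (50 / (25 * δ * e) * ll)) := by
            rw [Real.exp_nat_mul, Real.exp_log (by linarith)]
        _ ≤ Real.exp (l * η) := by
            apply Real.exp_le_exp.2
            calc (P.card : ℝ) * Real.log (50 / (25 * δ * e) * ll) ≤ y * (η * ll) :=
                  mul_le_mul hPy g4 (Real.log_nonneg h5) hy0
              _ = c * (l * η) := by rw [hy]; field_simp
              _ ≤ 1 * (l * η) := mul_le_mul_of_nonneg_right hc1 (by positivity)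
              _ = l * η := one_mul _
        _ = T ^ η := by rw [Real.rpow_def_of_pos hTpos]
    have h2 : 1 ≤ δ * l := by
      rw [div_le_iff₀ hδ] at g5
      linarith
    calc K * T ^ (-η) ≤ K * (δ * e / (1 + a)) ^ P.card :=
          mul_le_mul_of_nonneg_left h1 hK0
      _ = K * 1 * (δ * e / (1 + a)) ^ P.card := by ring
      _ ≤ K * (δ * l) * (δ * e / (1 + a)) ^ P.card := by
          apply mul_le_mul_of_nonneg_right _ (by positivity)
          exact mul_le_mul_of_nonneg_left h2 hK0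
      _ = _ := by ring
  refine hnum.trans (hmain.trans ?_)
  have hsub : {x : Fin k → ℝ | Function.Injective x ∧ (∀ j, x j ∈ simpleZeros T (T + K)) ∧
        (∀ i j, |x i - x j| ≤ 2 * Real.pi * Λ / l) ∧
          ∀ j, ∀ p ∈ P, ‖(p : ℂ) ^ (I * x j) - z p‖ < e} ⊆
      {x : Fin k → ℝ | Function.Injective x ∧ (∀ j, x j ∈ simpleZeros T (T + K)) ∧
        (∀ i j, |x i - x j| ≤ 2 * Real.pi * Λ / l) ∧
          ∀ j, ∀ p : ℕ, p.Prime → (p : ℝ) ≤ y → ‖(p : ℂ) ^ (I * x j) - z p‖ < ε₀} := by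
    rintro x ⟨h1, h2, h3, h4⟩
    refine ⟨h1, h2, h3, fun j p hp hpy => ?_⟩
    have h5 := h4 j
    rw [hP] at h5
    have h6 := (PP_set (A := fun p => ‖(p : ℂ) ^ (I * x j) - z p‖ < e)).1 h5
    exact (h6 p hp hpy).trans_le hee
  have hfin : {x : Fin k → ℝ | Function.Injective x ∧ (∀ j, x j ∈ simpleZeros T (T + K)) ∧
        (∀ i j, |x i - x j| ≤ 2 * Real.pi * Λ / l) ∧
          ∀ j, ∀ p : ℕ, p.Prime → (p : ℝ) ≤ y → ‖(p : ℂ) ^ (I * x j) - z p‖ < ε₀}.Finite := by
    have h1 : {x : Fin k → ℝ | ∀ j, x j ∈ simpleZeros T (T + K)}.Finite :=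
      Set.Finite.pi' fun _ => simpleZeros_finite T (T + K) hT1
    exact h1.subset fun x hx j => hx.2.1 j
  exact_mod_cast Set.ncard_le_ncard hsub hfin

end Pool.Agent.J4.H50.Kl
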