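import Pool.Agent.J4.H50.Kr
import Pool.Agent.Results.MP_6bc78b_nt.SimpleZerosEveryWeight

set_option autoImplicit false

/-!
# Simple zeros of Hardy's function with prescribed values at many primes
-/

namespace Pool.Agent.J4.H50.Kr

open Finset Complex
open Pool.Agent.Results.MP_6bc78b_nt.SimpleZerosEveryWeight (simpleZeros allZeros mult R main
  simpleZeros_finite)

/-- the simple zeros are among all zeros -/
lemma simple_le_all {T₁ T₂ : ℝ} (h : 1 ≤ T₁) (F : ℝ → ℝ) (hF : ∀ t, 0 ≤ F t) :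
    ∑ᶠ t ∈ simpleZeros T₁ T₂, F t ≤ ∑ᶠ s ∈ allZeros T₁ T₂, (mult s : ℝ) * F s.im := by
  classical
  rw [Pool.Agent.Results.MP_6bc78b_nt.SimpleZerosEveryWeight.simple_eq h,
    finsum_mem_image (Pool.Agent.Results.MP_6bc78b_nt.SimpleZerosEveryWeight.sc_inj T₁ T₂),
    Pool.Agent.Results.MP_6bc78b_nt.SimpleZerosEveryWeight.zeros_eq h,
    finsum_mem_coe_finset, finsum_mem_coe_finset]
  unfold Pool.Agent.Results.MP_6bc78b_nt.SimpleZerosEveryWeight.sc
  rw [Finset.sum_filter]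
  refine Finset.sum_le_sum fun s _ => ?_
  split_ifs with h1
  · have h2 : mult s = 1 := h1.2
    rw [h2]
    simp
  · exact mul_nonneg (Nat.cast_nonneg _) (hF _)

/-- the divisors of the product of the `p ^ (m_p (J_p - 1))` -/
def SS (P : Finset ℕ) (J m : ℕ → ℕ) : Finset ℕ := (∏ p ∈ P, p ^ (m p * (J p - 1))).divisors

/-- `|1 + w_p + ... + w_p ^ (J_p - 1)|²`, `w_p = z_p p ^ (-it)` -/
noncomputable def V (J : ℕ → ℕ) (z : ℕ → ℂ) (p : ℕ) (t : ℝ) : ℝ :=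
  ‖∑ i ∈ range (J p), (z p * (p : ℂ) ^ (-(I * t))) ^ i‖ ^ 2

lemma V_nonneg (J : ℕ → ℕ) (z : ℕ → ℂ) (p : ℕ) (t : ℝ) : 0 ≤ V J z p t := by unfold V; positivity

lemma norm_cpow_it (p : ℕ) (hp : 0 < p) (t : ℝ) : ‖(p : ℂ) ^ (-(I * t))‖ = 1 := by
  rw [Complex.norm_natCast_cpow_of_pos hp]
  simp

lemma norm_w (z : ℕ → ℂ) (hz : ∀ p, ‖z p‖ = 1) (p : ℕ) (hp : 0 < p) (t : ℝ) :
    ‖z p * (p : ℂ) ^ (-(I * t))‖ = 1 := by rw [norm_mul, hz, norm_cpow_it p hp t, one_mul]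

lemma dist_w (z : ℕ → ℂ) (p : ℕ) (hp : 0 < p) (t : ℝ) :
    ‖z p * (p : ℂ) ^ (-(I * t)) - 1‖ = ‖(p : ℂ) ^ (I * t) - z p‖ := by
  have h0 : (p : ℂ) ≠ 0 := by exact_mod_cast hp.ne'
  have h5 : z p * (p : ℂ) ^ (-(I * t)) - 1 =
      -(((p : ℂ) ^ (I * t) - z p) * (p : ℂ) ^ (-(I * t))) := by
    rw [sub_mul, ← Complex.cpow_add _ _ h0]
    simp
  rw [h5, norm_neg, norm_mul, norm_cpow_it p hp t, mul_one]

lemma V_le (J : ℕ → ℕ) (z : ℕ → ℂ) (hz : ∀ p, ‖z p‖ = 1) (p : ℕ) (hp : 0 < p) (t : ℝ) :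
    V J z p t ≤ (J p : ℝ) ^ 2 :=
  pow_le_pow_left₀ (norm_nonneg _) (geo_le _ _ (norm_w z hz p hp t)) 2

lemma V_far (J : ℕ → ℕ) (z : ℕ → ℂ) (hz : ∀ p, ‖z p‖ = 1) (p : ℕ) (hp : 0 < p) (t e : ℝ)
    (he : 0 < e) (h : e ≤ ‖(p : ℂ) ^ (I * t) - z p‖) : V J z p t ≤ (2 / e) ^ 2 :=
  pow_le_pow_left₀ (norm_nonneg _)
    (geo_far _ _ (norm_w z hz p hp t) e he (by rw [dist_w z p hp t]; exact h)) 2

lemma V_near (J : ℕ → ℕ) (z : ℕ → ℂ) (hz : ∀ p, ‖z p‖ = 1) (p : ℕ) (hp : 0 < p) (t e : ℝ)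
    (hJ : 1 ≤ J p) (he : e * J p ≤ 1) (h : ‖(p : ℂ) ^ (I * t) - z p‖ ≤ e) :
    ((J p : ℝ) / 2) ^ 2 ≤ V J z p t :=
  pow_le_pow_left₀ (by positivity)
    (geo_near _ hJ _ (norm_w z hz p hp t) e he (by rw [dist_w z p hp t]; exact h)) 2

lemma norm_R (P : Finset ℕ) (hP : ∀ p ∈ P, p.Prime) (J m : ℕ → ℕ) (z : ℕ → ℂ) (t : ℝ) :
    ‖R (SS P J m) (co P J m z) t‖ ^ 2 = ∏ p ∈ P, V J z p t ^ m p := by
  unfold R SS
  rw [R_eq P hP J m z, norm_prod, ← prod_pow]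
  refine prod_congr rfl fun p _ => ?_
  unfold V
  rw [norm_pow, ← pow_mul, ← pow_mul, mul_comm (m p) 2]

lemma main_eq (P : Finset ℕ) (hP : ∀ p ∈ P, p.Prime) (J m : ℕ → ℕ) (z : ℕ → ℂ)
    (hz : ∀ p, ‖z p‖ = 1) (T K : ℝ) :
    main T K (SS P J m) (co P J m z) =
      K / (2 * Real.pi) * Real.log T * ∏ p ∈ P, nn (J p) (m p) := by
  unfold main SS
  rw [norm_co P hP J m z hz]

lemma SS_le (P : Finset ℕ) (hP : ∀ p ∈ P, p.Prime) (J m : ℕ → ℕ) (B : ℝ)
    (hB : ∏ p ∈ P, (p : ℝ) ^ (m p * (J p - 1)) ≤ B) :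
    ∀ n ∈ SS P J m, 1 ≤ n ∧ (n : ℝ) ≤ B := by
  intro n hn
  have h0 : ∏ p ∈ P, p ^ (m p * (J p - 1)) ≠ 0 :=
    prod_ne_zero_iff.2 fun p hp => pow_ne_zero _ (hP p hp).ne_zero
  have h1 := Nat.dvd_of_mem_divisors hn
  refine ⟨Nat.pos_of_mem_divisors hn, ?_⟩
  have h2 : (n : ℝ) ≤ ((∏ p ∈ P, p ^ (m p * (J p - 1)) : ℕ) : ℝ) := by
    exact_mod_cast Nat.le_of_dvd (Nat.pos_of_ne_zero h0) h1
  refine h2.trans ?_
  push_cast
  exact hB

/-- the bounds for the weights that are products -/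
lemma weights : ∃ δ T₀ : ℝ, 0 < δ ∧ 1 ≤ T₀ ∧ ∀ T : ℝ, T₀ ≤ T →
    ∀ K : ℝ, T ^ (1 - δ) ≤ K → K ≤ T / 2 →
    ∀ P : Finset ℕ, (∀ p ∈ P, p.Prime) → ∀ (J m : ℕ → ℕ),
    ∏ p ∈ P, (p : ℝ) ^ (m p * (J p - 1)) ≤ T ^ δ →
    ∀ z : ℕ → ℂ, (∀ p, ‖z p‖ = 1) →
    (0.6625 * (K / (2 * Real.pi) * Real.log T * ∏ p ∈ P, nn (J p) (m p)) ≤
      ∑ᶠ t ∈ simpleZeros T (T + K), ∏ p ∈ P, V J z p t ^ m p) ∧
    (∑ᶠ s ∈ allZeros T (T + K), (mult s : ℝ) * ∏ p ∈ P, V J z p s.im ^ m p ≤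
      101 / 100 * (K / (2 * Real.pi) * Real.log T * ∏ p ∈ P, nn (J p) (m p))) := by
  obtain ⟨δ, T₀, hδ, h⟩ :=
    Pool.Agent.Results.MP_6bc78b_nt.SimpleZerosEveryWeight.result (1 / 100) (by norm_num)
  refine ⟨δ, max T₀ 1, hδ, le_max_right _ _, ?_⟩
  intro T hT K hK1 hK2 P hP J m hprod z hz
  have hT0 : T₀ ≤ T := (le_max_left _ _).trans hT
  obtain ⟨h1, h2⟩ := h T hT0 K hK1 hK2 (SS P J m) (SS_le P hP J m _ hprod) (co P J m z)
  rw [abs_le] at h2
  simp only [norm_R P hP J m z, main_eq P hP J m z hz] at h1 h2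
  constructor
  · norm_num at h1 ⊢
    exact h1
  · linarith [h2.2]

/-- Simple zeros of Hardy's function with prescribed values at the primes of a set. -/
theorem general : ∃ δ T₀ : ℝ, 0 < δ ∧ 1 ≤ T₀ ∧ ∀ T : ℝ, T₀ ≤ T →
    ∀ K : ℝ, T ^ (1 - δ) ≤ K → K ≤ T / 2 →
    ∀ P : Finset ℕ, (∀ p ∈ P, p.Prime) → ∀ (J m : ℕ → ℕ) (e : ℕ → ℝ),
    (∀ p ∈ P, 1 ≤ J p ∧ 1 ≤ m p ∧ 0 < e p) →
    ∏ p ∈ P, (p : ℝ) ^ (m p * (J p - 1)) ≤ T ^ δ →
    ∑ p ∈ P, (m p : ℝ) * (2 / (J p * e p)) ^ (2 * (m p - 1)) ≤ 1 / 4 →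
    ∀ z : ℕ → ℂ, (∀ p, ‖z p‖ = 1) →
    K * Real.log T / 20 * ∏ p ∈ P, (1 / ((m p : ℝ) * J p)) ≤
      ({t ∈ simpleZeros T (T + K) | ∀ p ∈ P, ‖(p : ℂ) ^ (I * t) - z p‖ < e p}.ncard : ℝ) := by
  classical
  obtain ⟨δ, T₀, hδ, hT₀, h⟩ := weights
  refine ⟨δ, T₀, hδ, hT₀, ?_⟩
  intro T hT K hK1 hK2 P hP J m e hJme hprod hsum z hz
  have hT1 : 1 ≤ T := hT₀.trans hT
  have hK0 : 0 ≤ K := le_trans (by positivity) hK1
  have hlog : 0 ≤ Real.log T := Real.log_nonneg hT1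
  have hpi := Real.pi_pos
  set X := (simpleZeros_finite T (T + K) hT1).toFinset with hX
  have hXs : ∀ F : ℝ → ℝ, ∑ᶠ t ∈ simpleZeros T (T + K), F t = ∑ t ∈ X, F t := by
    intro F
    rw [hX, finsum_mem_eq_finite_toFinset_sum _ (simpleZeros_finite T (T + K) hT1)]
  have hVpos : ∀ p t, 0 ≤ V J z p t := fun p t => V_nonneg J z p t
  have hprodV : ∀ (P' : Finset ℕ) (m' : ℕ → ℕ) (t : ℝ), 0 ≤ ∏ p ∈ P', V J z p t ^ m' p :=
    fun P' m' t => prod_nonneg fun p _ => pow_nonneg (hVpos p t) _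
  have hnn : ∀ (P' : Finset ℕ) (m' : ℕ → ℕ), 0 ≤ ∏ p ∈ P', nn (J p) (m' p) :=
    fun P' m' => prod_nonneg fun p _ => nn_nonneg _ _
  -- upper bounds
  have hup : ∀ m' : ℕ → ℕ, (∀ p ∈ P, m' p ≤ m p) → ∑ t ∈ X, ∏ p ∈ P, V J z p t ^ m' p ≤
      101 / 100 * (K / (2 * Real.pi) * Real.log T * ∏ p ∈ P, nn (J p) (m' p)) := by
    intro m' hm'
    have hprod' : ∏ p ∈ P, (p : ℝ) ^ (m' p * (J p - 1)) ≤ T ^ δ := by
      refine le_trans (prod_le_prod (fun p _ => by positivity) fun p hp => ?_) hprod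
      exact pow_le_pow_right₀ (by exact_mod_cast (hP p hp).one_le)
        (Nat.mul_le_mul_right _ (hm' p hp))
    obtain ⟨-, h2⟩ := h T hT K hK1 hK2 P hP J m' hprod' z hz
    have h3 := simple_le_all hT1 (T₂ := T + K) (fun t => ∏ p ∈ P, V J z p t ^ m' p)
      (fun t => hprodV P m' t)
    rw [hXs] at h3
    exact h3.trans h2
  -- the lower bound
  set M : ℝ := K / (2 * Real.pi) * Real.log T * ∏ p ∈ P, nn (J p) (m p) with hM
  have hlow : 0.6625 * M ≤ ∑ t ∈ X, ∏ p ∈ P, V J z p t ^ m p := by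
    obtain ⟨h1, -⟩ := h T hT K hK1 hK2 P hP J m hprod z hz
    rw [hXs] at h1
    exact h1
  have hM0 : 0 ≤ M := by
    rw [hM]
    exact mul_nonneg (by positivity) (hnn P m)
  -- the bad zeros
  set bad : ℕ → Finset ℝ := fun q => X.filter fun t => e q ≤ ‖(q : ℂ) ^ (I * t) - z q‖ with hbad
  set good : Finset ℝ := X.filter fun t => ∀ p ∈ P, ‖(p : ℂ) ^ (I * t) - z p‖ < e p with hgood
  have hb : ∀ q ∈ P, ∑ t ∈ bad q, ∏ p ∈ P, V J z p t ^ m p ≤
      101 / 100 * ((m q : ℝ) * (2 / (J q * e q)) ^ (2 * (m q - 1))) * M := by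
    intro q hq
    have hq0 : 0 < q := (hP q hq).pos
    obtain ⟨hJ1, hm1, he0⟩ := hJme q hq
    have hJr : (0 : ℝ) < J q := by exact_mod_cast hJ1
    set m' : ℕ → ℕ := Function.update m q 1 with hm'
    have hm'q : m' q = 1 := Function.update_self q 1 m
    have hm'p : ∀ p ∈ P.erase q, m' p = m p := fun p hp =>
      Function.update_of_ne (mem_erase.1 hp).1 _ _
    have hm'le : ∀ p ∈ P, m' p ≤ m p := by
      intro p hp
      by_cases hpq : p = q
      · rw [hpq, hm'q]; exact hm1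
      · rw [hm'p p (mem_erase.2 ⟨hpq, hp⟩)]
    have hsplit : ∀ (F : ℕ → ℕ → ℝ), ∏ p ∈ P, F p (m' p) =
        F q 1 * ∏ p ∈ P.erase q, F p (m p) := by
      intro F
      rw [← mul_prod_erase P _ hq, hm'q]
      congr 1
      exact prod_congr rfl fun p hp => by rw [hm'p p hp]
    have h1 : ∑ t ∈ bad q, ∏ p ∈ P, V J z p t ^ m p ≤
        ∑ t ∈ X, (2 / e q) ^ (2 * (m q - 1)) * ∏ p ∈ P, V J z p t ^ m' p := by
      refine (sum_le_sum fun t ht => ?_).trans (sum_le_sum_of_subset_of_nonneg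
        (filter_subset _ _) fun t _ _ => mul_nonneg (by positivity) (hprodV _ _ _))
      rw [← mul_prod_erase P _ hq, hsplit (fun p j => V J z p t ^ j), pow_one]
      have h5 := V_far J z hz q hq0 t (e q) he0 (mem_filter.1 ht).2
      have h6 : V J z q t ^ m q ≤ (2 / e q) ^ (2 * (m q - 1)) * V J z q t := by
        obtain ⟨k, hk⟩ : ∃ k, m q = k + 1 := ⟨m q - 1, by omega⟩
        rw [hk, Nat.add_sub_cancel, pow_succ, pow_mul]
        exact mul_le_mul_of_nonneg_right (pow_le_pow_left₀ (hVpos q t) h5 _) (hVpos q t)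
      calc _ ≤ ((2 / e q) ^ (2 * (m q - 1)) * V J z q t) * ∏ p ∈ P.erase q, V J z p t ^ m p :=
            mul_le_mul_of_nonneg_right h6 (hprodV _ _ _)
        _ = _ := by ring
    rw [← mul_sum] at h1
    have h2 := hup m' hm'le
    rw [hsplit (fun p j => nn (J p) j), nn_one _ hJ1] at h2
    have h3 : M = nn (J q) (m q) * (K / (2 * Real.pi) * Real.log T *
        ∏ p ∈ P.erase q, nn (J p) (m p)) := by
      rw [hM, ← mul_prod_erase P _ hq]
      ring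
    set M' : ℝ := K / (2 * Real.pi) * Real.log T * ∏ p ∈ P.erase q, nn (J p) (m p) with hM'
    have hM'0 : 0 ≤ M' := by
      rw [hM']
      exact mul_nonneg (by positivity) (hnn _ _)
    have h7 := nn_ge (J q) (m q) hJ1 hm1
    have h11 : (2 / e q) ^ (2 * (m q - 1)) * (J q : ℝ) ≤
        (m q : ℝ) * (2 / (J q * e q)) ^ (2 * (m q - 1)) * nn (J q) (m q) := by
      have h12 : (2 / e q) ^ (2 * (m q - 1)) * (J q : ℝ) * (J q : ℝ) =
          (2 / (J q * e q)) ^ (2 * (m q - 1)) * (J q : ℝ) ^ (2 * m q) := by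
        obtain ⟨k, hk⟩ : ∃ k, m q = k + 1 := ⟨m q - 1, by omega⟩
        have h9 : 2 / e q = (2 / (J q * e q)) * J q := by field_simp
        rw [hk, Nat.add_sub_cancel, h9, mul_pow, show 2 * (k + 1) = 2 * k + 2 by ring, pow_add]
        ring
      have h14 : (2 / e q) ^ (2 * (m q - 1)) * (J q : ℝ) * (J q : ℝ) ≤
          (m q : ℝ) * (2 / (J q * e q)) ^ (2 * (m q - 1)) * nn (J q) (m q) * (J q : ℝ) := by
        rw [h12]
        calc _ ≤ (2 / (J q * e q)) ^ (2 * (m q - 1)) * ((m q * J q : ℝ) * nn (J q) (m q)) :=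
              mul_le_mul_of_nonneg_left h7 (by positivity)
          _ = _ := by ring
      exact le_of_mul_le_mul_right h14 hJr
    calc ∑ t ∈ bad q, ∏ p ∈ P, V J z p t ^ m p ≤
        (2 / e q) ^ (2 * (m q - 1)) * ∑ t ∈ X, ∏ p ∈ P, V J z p t ^ m' p := h1
      _ ≤ (2 / e q) ^ (2 * (m q - 1)) * (101 / 100 * (K / (2 * Real.pi) * Real.log T *
          ((J q : ℝ) * ∏ p ∈ P.erase q, nn (J p) (m p)))) :=
        mul_le_mul_of_nonneg_left h2 (by positivity)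
      _ = ((2 / e q) ^ (2 * (m q - 1)) * (J q : ℝ)) * (101 / 100 * M') := by rw [hM']; ring
      _ ≤ ((m q : ℝ) * (2 / (J q * e q)) ^ (2 * (m q - 1)) * nn (J q) (m q)) *
          (101 / 100 * M') := mul_le_mul_of_nonneg_right h11 (by positivity)
      _ = 101 / 100 * ((m q : ℝ) * (2 / (J q * e q)) ^ (2 * (m q - 1))) * M := by
        rw [h3]; ring
  have hsplit : ∑ t ∈ X, ∏ p ∈ P, V J z p t ^ m p ≤
      ∑ t ∈ good, ∏ p ∈ P, V J z p t ^ m p + ∑ q ∈ P, ∑ t ∈ bad q, ∏ p ∈ P, V J z p t ^ m p := by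
    simp only [hgood, hbad, sum_filter]
    rw [sum_comm, ← sum_add_distrib]
    refine sum_le_sum fun t _ => ?_
    have hnn : ∀ q ∈ P, (0 : ℝ) ≤ if e q ≤ ‖(q : ℂ) ^ (I * t) - z q‖ then
        ∏ p ∈ P, V J z p t ^ m p else 0 := fun q _ => by split_ifs; exacts [hprodV _ _ _, le_rfl]
    by_cases hg : ∀ p ∈ P, ‖(p : ℂ) ^ (I * t) - z p‖ < e p
    · rw [if_pos hg]
      have := sum_nonneg hnn
      linarith
    · rw [if_neg hg]
      push Not at hg
      obtain ⟨q, hq, hqe⟩ := hg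
      have h1 := single_le_sum hnn hq
      rw [if_pos hqe] at h1
      linarith
  have hbs : ∑ q ∈ P, ∑ t ∈ bad q, ∏ p ∈ P, V J z p t ^ m p ≤ 101 / 400 * M := by
    calc _ ≤ ∑ q ∈ P, 101 / 100 * ((m q : ℝ) * (2 / (J q * e q)) ^ (2 * (m q - 1))) * M :=
          sum_le_sum hb
      _ = 101 / 100 * (∑ q ∈ P, (m q : ℝ) * (2 / (J q * e q)) ^ (2 * (m q - 1))) * M := by
          rw [mul_sum, sum_mul]
      _ ≤ 101 / 100 * (1 / 4) * M := by
          refine mul_le_mul_of_nonneg_right ?_ hM0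
          linarith
      _ = 101 / 400 * M := by ring
  have hgs : ∑ t ∈ good, ∏ p ∈ P, V J z p t ^ m p ≤
      (good.card : ℝ) * ∏ p ∈ P, (J p : ℝ) ^ (2 * m p) := by
    rw [← nsmul_eq_mul, ← sum_const]
    refine sum_le_sum fun t _ => prod_le_prod (fun p _ => pow_nonneg (hVpos p t) _) fun p hp => ?_
    rw [pow_mul]
    exact pow_le_pow_left₀ (hVpos p t) (V_le J z hz p (hP p hp).pos t) _
  have hcard : (({t ∈ simpleZeros T (T + K) | ∀ p ∈ P, ‖(p : ℂ) ^ (I * t) - z p‖ < e p}.ncard : ℕ)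
      : ℝ) = good.card := by
    congr 1
    rw [← Set.ncard_coe_finset]
    congr 1
    ext t
    simp [hgood, hX]
  rw [hcard]
  have h4pos : (0 : ℝ) < ∏ p ∈ P, (J p : ℝ) ^ (2 * m p) := prod_pos fun p hp => by
    have := (hJme p hp).1
    positivity
  have hfin : 41 / 100 * M ≤ (good.card : ℝ) * ∏ p ∈ P, (J p : ℝ) ^ (2 * m p) := by
    have h1 : 0.6625 * M ≤ (good.card : ℝ) * ∏ p ∈ P, (J p : ℝ) ^ (2 * m p) + 101 / 400 * M := by
      linarith
    have h2 : (0.6625 : ℝ) * M = 41 / 100 * M + 101 / 400 * M := by ring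
    linarith
  have hMlow : K / (2 * Real.pi) * Real.log T * ((∏ p ∈ P, (1 / ((m p : ℝ) * J p))) *
      ∏ p ∈ P, (J p : ℝ) ^ (2 * m p)) ≤ M := by
    rw [hM, ← prod_mul_distrib]
    refine mul_le_mul_of_nonneg_left (prod_le_prod (fun p _ => by positivity) fun p hp => ?_)
      (by positivity)
    obtain ⟨hJ1, hm1, -⟩ := hJme p hp
    have h1 : (0 : ℝ) < (m p : ℝ) * J p := by
      have : (0 : ℝ) < m p := by exact_mod_cast hm1
      have : (0 : ℝ) < J p := by exact_mod_cast hJ1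
      positivity
    rw [one_div, inv_mul_le_iff₀ h1]
    exact nn_ge _ _ hJ1 hm1
  have hA : 0 ≤ ∏ p ∈ P, (1 / ((m p : ℝ) * J p)) := prod_nonneg fun p _ => by positivity
  have hB : K * Real.log T / 20 ≤ 41 / 100 * (K / (2 * Real.pi) * Real.log T) := by
    have h1 : K / (2 * Real.pi) * Real.log T = K * Real.log T * (1 / (2 * Real.pi)) := by ring
    have h2 : (1 : ℝ) / 8 ≤ 1 / (2 * Real.pi) := by
      apply one_div_le_one_div_of_le (by positivity)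
      linarith [Real.pi_lt_four]
    have h3 : 0 ≤ K * Real.log T := by positivity
    rw [h1]
    nlinarith
  have hC : K * Real.log T / 20 * (∏ p ∈ P, (1 / ((m p : ℝ) * J p))) *
      ∏ p ∈ P, (J p : ℝ) ^ (2 * m p) ≤ (good.card : ℝ) * ∏ p ∈ P, (J p : ℝ) ^ (2 * m p) := by
    calc _ = K * Real.log T / 20 * ((∏ p ∈ P, (1 / ((m p : ℝ) * J p))) *
          ∏ p ∈ P, (J p : ℝ) ^ (2 * m p)) := by ring
      _ ≤ 41 / 100 * (K / (2 * Real.pi) * Real.log T) * ((∏ p ∈ P, (1 / ((m p : ℝ) * J p))) *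
          ∏ p ∈ P, (J p : ℝ) ^ (2 * m p)) := mul_le_mul_of_nonneg_right hB (by positivity)
      _ = 41 / 100 * (K / (2 * Real.pi) * Real.log T * ((∏ p ∈ P, (1 / ((m p : ℝ) * J p))) *
          ∏ p ∈ P, (J p : ℝ) ^ (2 * m p))) := by ring
      _ ≤ 41 / 100 * M := by linarith
      _ ≤ _ := hfin
  exact le_of_mul_le_mul_right hC h4pos

end Pool.Agent.J4.H50.Kr


namespace Pool.Agent.J4.H50.Kr

open Finset Complex Filter Topology
open Pool.Agent.Results.MP_6bc78b_nt.SimpleZerosEveryWeight (simpleZeros allZeros mult R main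
  simpleZeros_finite)

/-- the primes up to `N` -/
def PP (N : ℕ) : Finset ℕ := (range (N + 1)).filter Nat.Prime

lemma PP_prime (N : ℕ) : ∀ p ∈ PP N, p.Prime := fun _ hp => (mem_filter.1 hp).2

lemma PP_card (N : ℕ) : (PP N).card = Nat.primeCounting N := by
  unfold PP Nat.primeCounting Nat.primeCounting'
  rw [Nat.count_eq_card_filter_range]

lemma PP_card_le (N : ℕ) : ((PP N).card : ℝ) ≤ N := by
  have h1 : PP N ⊆ Icc 1 N := by
    intro p hp
    unfold PP at hp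
    rw [mem_filter, mem_range] at hp
    rw [mem_Icc]
    exact ⟨hp.2.one_le, by omega⟩
  have h2 := card_le_card h1
  rw [Nat.card_Icc, Nat.add_sub_cancel] at h2
  exact_mod_cast h2

lemma log_four : Real.log 4 ≤ 1.3864 := by
  have h1 : Real.log 4 = 2 * Real.log 2 := by
    rw [show (4 : ℝ) = 2 ^ 2 by norm_num, Real.log_pow]
    norm_num
  rw [h1]
  linarith [Real.log_two_lt_d9]

lemma PP_prod (N k : ℕ) : ∏ p ∈ PP N, (p : ℝ) ^ k ≤ Real.exp (N * k * 1.3864) := by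
  have h1 : ∏ p ∈ PP N, (p : ℝ) ^ k = ((primorial N : ℕ) : ℝ) ^ k := by
    rw [prod_pow, PP, primorial]
    push_cast
    rfl
  have h2 : ((primorial N : ℕ) : ℝ) ≤ 4 ^ N := by exact_mod_cast primorial_le_four_pow N
  rw [h1]
  calc ((primorial N : ℕ) : ℝ) ^ k ≤ ((4 : ℝ) ^ N) ^ k :=
        pow_le_pow_left₀ (Nat.cast_nonneg _) h2 k
    _ = Real.exp (N * k * Real.log 4) := by
        rw [← pow_mul, ← Real.rpow_natCast, Real.rpow_def_of_pos (by norm_num)]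
        congr 1
        push_cast
        ring
    _ ≤ Real.exp (N * k * 1.3864) :=
        Real.exp_le_exp.2 (mul_le_mul_of_nonneg_left log_four (by positivity))

lemma PP_set {y : ℝ} {A : ℕ → Prop} :
    (∀ p ∈ PP ⌊y⌋₊, A p) ↔ ∀ p : ℕ, p.Prime → (p : ℝ) ≤ y → A p := by
  constructor
  · intro h p hp hy
    refine h p ?_
    unfold PP
    rw [mem_filter, mem_range]
    exact ⟨Nat.lt_succ_of_le (Nat.le_floor hy), hp⟩
  · intro h p hp
    unfold PP at hp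
    rw [mem_filter, mem_range] at hp
    refine h p hp.2 ?_
    rw [Nat.lt_succ_iff] at hp
    rcases hp with ⟨h1, h2⟩
    have h3 : ⌊y⌋₊ ≠ 0 := by
      have := h2.pos
      omega
    exact (Nat.le_floor_iff' h2.ne_zero).1 h1


lemma len_exp (P : Finset ℕ) (hP : ∀ p ∈ P, p.Prime) (a : ℕ → ℕ) :
    ∏ p ∈ P, (p : ℝ) ^ a p = Real.exp (∑ p ∈ P, a p * Real.log p) := by
  rw [Real.exp_sum]
  refine prod_congr rfl fun p hp => ?_
  rw [Real.exp_nat_mul, Real.exp_log (by exact_mod_cast (hP p hp).pos)]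

/-- **lower bound for the simple zeros** -/
theorem lower : ∃ c T₀ : ℝ, 0 < c ∧ 1 ≤ T₀ ∧ ∀ T : ℝ, T₀ ≤ T →
    ∀ K : ℝ, T ^ (1 - c) ≤ K → K ≤ T / 2 →
    ∀ P : Finset ℕ, (∀ p ∈ P, p.Prime) → ∀ e : ℕ → ℝ, (∀ p ∈ P, 0 < e p ∧ e p ≤ 1) →
    (1 + Real.log P.card) * ∑ p ∈ P, Real.log p / e p ≤ c * Real.log T →
    ∀ z : ℕ → ℂ, (∀ p, ‖z p‖ = 1) →
    K * Real.log T / 20 * ∏ p ∈ P, (e p / (25 * (1 + Real.log P.card))) ≤
      ({t ∈ simpleZeros T (T + K) | ∀ p ∈ P, ‖(p : ℂ) ^ (I * t) - z p‖ < e p}.ncard : ℝ) := by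
  obtain ⟨δ, T₀, hδ, hT₀1, h⟩ := general
  refine ⟨δ / 20, T₀, by positivity, hT₀1, ?_⟩
  intro T hT K hK1 hK2 P hP e he hlen0 z hz
  have hT1 : 1 ≤ T := hT₀1.trans hT
  have hTpos : 0 < T := by linarith
  have hl0 : 0 ≤ Real.log T := Real.log_nonneg hT1
  have hK0 : 0 ≤ K := le_trans (by positivity) hK1
  set a : ℝ := Real.log P.card with ha
  have ha0 : 0 ≤ a := Real.log_natCast_nonneg _
  set J : ℕ → ℕ := fun p => ⌈4 / e p⌉₊ with hJ
  set m : ℕ := ⌈2 * a⌉₊ + 4 with hm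
  have hm1 : 2 * a + 4 ≤ m := by
    rw [hm]
    push_cast
    linarith [Nat.le_ceil (2 * a)]
  have hm2 : (m : ℝ) ≤ 5 * (1 + a) := by
    rw [hm]
    push_cast
    linarith [Nat.ceil_lt_add_one (show 0 ≤ 2 * a by positivity)]
  have hJ0 : ∀ p ∈ P, 4 / e p ≤ J p ∧ 1 ≤ J p ∧ ((J p - 1 : ℕ) : ℝ) ≤ 4 / e p ∧
      (J p : ℝ) * e p ≤ 5 := by
    intro p hp
    obtain ⟨he0, he1⟩ := he p hp
    have hJ1 : 4 / e p ≤ J p := Nat.le_ceil _
    have h4e : 4 ≤ 4 / e p := by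
      rw [le_div_iff₀ he0]
      linarith
    have hJ2 : (J p : ℝ) < 4 / e p + 1 := Nat.ceil_lt_add_one (by positivity)
    have hJpos : 1 ≤ J p := by
      have : (1 : ℝ) ≤ J p := by linarith
      exact_mod_cast this
    refine ⟨hJ1, hJpos, ?_, ?_⟩
    · rw [Nat.cast_sub hJpos]
      push_cast
      linarith
    · have h2 : (J p : ℝ) * e p ≤ (4 / e p + 1) * e p := mul_le_mul_of_nonneg_right hJ2.le he0.le
      have h3 : (4 / e p + 1) * e p = 4 + e p := by field_simp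
      linarith
  have hlogp : ∀ p ∈ P, 0 ≤ Real.log (p : ℝ) := fun p _ => Real.log_natCast_nonneg _
  -- the length
  have hlen : ∏ p ∈ P, (p : ℝ) ^ (m * (J p - 1)) ≤ T ^ δ := by
    rw [len_exp P hP (fun p => m * (J p - 1)), Real.rpow_def_of_pos hTpos]
    apply Real.exp_le_exp.2
    push_cast
    calc ∑ p ∈ P, (m : ℝ) * ((J p - 1 : ℕ) : ℝ) * Real.log p ≤
          ∑ p ∈ P, 20 * (1 + a) * (Real.log p / e p) := by
          refine sum_le_sum fun p hp => ?_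
          have h1 : (m : ℝ) * ((J p - 1 : ℕ) : ℝ) ≤ 5 * (1 + a) * (4 / e p) :=
            mul_le_mul hm2 (hJ0 p hp).2.2.1 (Nat.cast_nonneg _) (by positivity)
          calc _ ≤ 5 * (1 + a) * (4 / e p) * Real.log p :=
                mul_le_mul_of_nonneg_right h1 (hlogp p hp)
            _ = _ := by ring
      _ = 20 * ((1 + a) * ∑ p ∈ P, Real.log p / e p) := by rw [← mul_sum]; ring
      _ ≤ 20 * (δ / 20 * Real.log T) := mul_le_mul_of_nonneg_left hlen0 (by norm_num)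
      _ = Real.log T * δ := by ring
  -- the sum
  have hsum : ∑ p ∈ P, (m : ℝ) * (2 / ((J p : ℝ) * e p)) ^ (2 * (m - 1)) ≤ 1 / 4 := by
    rcases P.eq_empty_or_nonempty with hPe | hPne
    · rw [hPe]
      norm_num
    have hc1 : (1 : ℝ) ≤ P.card := by exact_mod_cast hPne.card_pos
    have hone : ∀ p ∈ P, (m : ℝ) * (2 / ((J p : ℝ) * e p)) ^ (2 * (m - 1)) ≤
        1 / (4 * P.card) := by
      intro p hp
      obtain ⟨he0, he1⟩ := he p hp
      obtain ⟨hJ1, hJpos, -, -⟩ := hJ0 p hp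
      have h2 : 2 / ((J p : ℝ) * e p) ≤ 1 / 2 := by
        have : 4 ≤ (J p : ℝ) * e p := by
          rw [div_le_iff₀ he0] at hJ1
          exact hJ1
        rw [div_le_div_iff₀ (by linarith) (by norm_num)]
        linarith
      have h3 : (2 / ((J p : ℝ) * e p)) ^ (2 * (m - 1)) ≤ (1 / 2) ^ (2 * (m - 1)) :=
        pow_le_pow_left₀ (by positivity) h2 _
      have h4 : (m : ℝ) ≤ 2 ^ m := by exact_mod_cast (Nat.lt_two_pow_self).le
      have h5 : (16 : ℝ) * P.card ≤ 2 ^ m := by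
        have h6 : (2 : ℝ) ^ m = Real.exp (m * Real.log 2) := by
          rw [Real.exp_nat_mul, Real.exp_log (by norm_num)]
        have h7 : (16 : ℝ) * P.card = Real.exp (4 * Real.log 2 + a) := by
          rw [Real.exp_add, ha, Real.exp_log (by linarith), show (4 : ℝ) * Real.log 2 =
            ((4 : ℕ) : ℝ) * Real.log 2 by norm_num, Real.exp_nat_mul, Real.exp_log (by norm_num)]
          norm_num
        rw [h6, h7]
        apply Real.exp_le_exp.2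
        have h8 := Real.log_two_gt_d9
        have h9 : (2 * a + 4) * Real.log 2 ≤ m * Real.log 2 :=
          mul_le_mul_of_nonneg_right hm1 (by linarith)
        nlinarith
      calc (m : ℝ) * (2 / ((J p : ℝ) * e p)) ^ (2 * (m - 1)) ≤ 2 ^ m * (1 / 2) ^ (2 * (m - 1)) :=
            mul_le_mul h4 h3 (by positivity) (by positivity)
        _ = 4 / 2 ^ m := by
            obtain ⟨k, hk⟩ : ∃ k, m = k + 1 := ⟨m - 1, by omega⟩
            rw [hk, Nat.add_sub_cancel, one_div, inv_pow, pow_mul, pow_succ]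
            norm_num
            rw [show (4 : ℝ) ^ k = 2 ^ k * 2 ^ k by rw [← mul_pow]; norm_num]
            field_simp
            norm_num
        _ ≤ 4 / (16 * P.card) := div_le_div_of_nonneg_left (by norm_num) (by linarith) h5
        _ = 1 / (4 * P.card) := by
            field_simp
            norm_num
    refine (sum_le_sum hone).trans ?_
    rw [sum_const, nsmul_eq_mul]
    have : (P.card : ℝ) * (1 / (4 * P.card)) = 1 / 4 := by field_simp
    exact this.le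
  have hmain := h T hT K (by
      refine le_trans ?_ hK1
      refine Real.rpow_le_rpow_of_exponent_le hT1 ?_
      have : δ / 20 ≤ δ := div_le_self hδ.le (by norm_num)
      linarith) hK2 P hP
    J (fun _ => m) e (fun p hp => ⟨(hJ0 p hp).2.1, by omega, (he p hp).1⟩) hlen hsum z hz
  refine le_trans ?_ hmain
  refine mul_le_mul_of_nonneg_left (prod_le_prod (fun p hp => ?_) fun p hp => ?_) (by positivity)
  · have := (he p hp).1
    positivity
  · obtain ⟨he0, he1⟩ := he p hp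
    obtain ⟨hJ1, hJpos, -, hJ5⟩ := hJ0 p hp
    have hJr : (0 : ℝ) < J p := by exact_mod_cast hJpos
    have hmr : (0 : ℝ) < m := by linarith
    rw [div_le_div_iff₀ (by positivity) (by positivity), one_mul]
    calc e p * ((m : ℝ) * J p) = (m : ℝ) * ((J p : ℝ) * e p) := by ring
      _ ≤ (5 * (1 + a)) * 5 := mul_le_mul hm2 hJ5 (by positivity) (by positivity)
      _ = 25 * (1 + a) := by ring


/-- the growth facts -/
lemma growth (e η : ℝ) (he : 0 < e) (hη : 0 < η) (c : ℝ) (hc : 0 < c) : ∀ᶠ T : ℝ in atTop,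
    1 ≤ Real.log (Real.log T) ∧ 20 ≤ Real.log T ∧
    2 ≤ c * Real.log T / Real.log (Real.log T) ∧
    Real.log (50 / e * Real.log (Real.log T)) ≤ η * Real.log (Real.log T) := by
  have h1 : Tendsto (fun T : ℝ => Real.log T) atTop atTop := Real.tendsto_log_atTop
  have h2 : Tendsto (fun T : ℝ => Real.log (Real.log T)) atTop atTop := h1.comp h1
  have h3 : ∀ᶠ u : ℝ in atTop, Real.log (50 / e * u) ≤ η * u := by
    have h4 : Tendsto (fun u : ℝ => 50 / e * u) atTop atTop :=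
      tendsto_id.const_mul_atTop (by positivity)
    have h5 := h4.eventually
      (Real.isLittleO_log_id_atTop.def (show (0 : ℝ) < η / (50 / e) by positivity))
    filter_upwards [h5, h4.eventually_ge_atTop 1] with u hu hu1
    rw [Real.norm_eq_abs, abs_of_nonneg (Real.log_nonneg hu1), id, Real.norm_eq_abs,
      abs_of_nonneg (by linarith)] at hu
    calc _ ≤ _ := hu
      _ = η * u := by field_simp
  have h6 : ∀ᶠ u : ℝ in atTop, 2 ≤ c * u / Real.log u := by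
    have h7 := Real.isLittleO_log_id_atTop.def (show (0 : ℝ) < c / 2 by positivity)
    filter_upwards [h7, eventually_ge_atTop (2 : ℝ)] with u hu hu1
    have h8 : 0 < Real.log u := Real.log_pos (by linarith)
    rw [Real.norm_eq_abs, abs_of_nonneg h8.le, id, Real.norm_eq_abs,
      abs_of_nonneg (by linarith)] at hu
    rw [le_div_iff₀ h8]
    linarith
  filter_upwards [h2.eventually_ge_atTop 1, h1.eventually_ge_atTop 20, h1.eventually h6,
    h2.eventually h3] with T a b c d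
  exact ⟨a, b, c, d⟩


/-- all primes up to `c log T / log log T` -/
theorem primes_up_to : ∀ ε η : ℝ, 0 < ε → 0 < η → ∃ c T₀ : ℝ, 0 < c ∧ ∀ T : ℝ, T₀ ≤ T →
    ∀ K : ℝ, T ^ (1 - c) ≤ K → K ≤ T / 2 → ∀ z : ℕ → ℂ, (∀ p, ‖z p‖ = 1) →
    K * T ^ (-η) ≤ ({t ∈ simpleZeros T (T + K) | ∀ p : ℕ, p.Prime →
      (p : ℝ) ≤ c * Real.log T / Real.log (Real.log T) →
        ‖(p : ℂ) ^ (I * t) - z p‖ < ε}.ncard : ℝ) := by
  intro ε₀ η hε₀ hη
  obtain ⟨e, he, he1, hee⟩ : ∃ ε : ℝ, 0 < ε ∧ ε ≤ 1 ∧ ε ≤ ε₀ :=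
    ⟨min ε₀ 1, lt_min hε₀ one_pos, min_le_right _ _, min_le_left _ _⟩
  obtain ⟨δ, T₀, hδ, hT₀1, h⟩ := lower
  set c : ℝ := min (δ * e / 4) 1 with hc
  have hc0 : 0 < c := lt_min (by positivity) (by norm_num)
  have hc1 : c ≤ 1 := min_le_right _ _
  have hcδ : c ≤ δ * e / 4 := min_le_left _ _
  obtain ⟨T₁, hT₁⟩ := eventually_atTop.1 (growth e η he hη c hc0)
  refine ⟨c, max T₀ T₁, hc0, ?_⟩
  intro T hT K hK1 hK2 z hz
  have hTT0 : T₀ ≤ T := (le_max_left _ _).trans hT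
  have hT1 : 1 ≤ T := hT₀1.trans hTT0
  have hTpos : 0 < T := by linarith
  obtain ⟨g1, g2, g3, g4⟩ := hT₁ T ((le_max_right _ _).trans hT)
  set l : ℝ := Real.log T with hl
  set ll : ℝ := Real.log l with hll
  have hl0 : 0 < l := by linarith
  have hll0 : 0 < ll := by linarith
  have hK0 : 0 ≤ K := le_trans (by positivity) hK1
  set y : ℝ := c * l / ll with hy
  have hy0 : 0 ≤ y := by linarith
  have hyl : y ≤ l := by
    rw [hy, div_le_iff₀ hll0]
    nlinarith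
  set P : Finset ℕ := PP ⌊y⌋₊ with hP
  have hPy : (P.card : ℝ) ≤ y := (PP_card_le _).trans (Nat.floor_le hy0)
  have h2P : 2 ∈ P := by
    rw [hP]
    unfold PP
    rw [mem_filter, mem_range]
    refine ⟨Nat.lt_succ_of_le (Nat.le_floor ?_), Nat.prime_two⟩
    push_cast
    exact g3
  have hP1 : (1 : ℝ) ≤ P.card := by exact_mod_cast card_pos.2 ⟨2, h2P⟩
  set a : ℝ := Real.log P.card with ha
  have ha0 : 0 ≤ a := Real.log_natCast_nonneg _
  have hall : a ≤ ll := Real.log_le_log (by linarith) (hPy.trans hyl)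
  have h1a : 1 + a ≤ 2 * ll := by linarith
  have hlog : ∑ p ∈ P, Real.log p / e ≤ y * 1.3864 / e := by
    rw [← Finset.sum_div]
    apply div_le_div_of_nonneg_right _ he.le
    have h1 := PP_prod ⌊y⌋₊ 1
    have h2 := len_exp (PP ⌊y⌋₊) (PP_prime _) (fun _ => 1)
    rw [h2, Real.exp_le_exp] at h1
    push_cast at h1
    simp only [one_mul, mul_one] at h1
    refine h1.trans ?_
    exact mul_le_mul_of_nonneg_right (Nat.floor_le hy0) (by norm_num)
  have hlen : (1 + a) * ∑ p ∈ P, Real.log p / e ≤ δ * l := by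
    have hs0 : 0 ≤ ∑ p ∈ P, Real.log (p : ℝ) / e :=
      sum_nonneg fun p _ => div_nonneg (Real.log_natCast_nonneg _) he.le
    calc (1 + a) * ∑ p ∈ P, Real.log p / e ≤ (2 * ll) * (y * 1.3864 / e) :=
          mul_le_mul h1a hlog hs0 (by positivity)
      _ = 2.7728 * c / e * l := by rw [hy]; field_simp; ring
      _ ≤ 4 * c / e * l := by
          apply mul_le_mul_of_nonneg_right _ hl0.le
          apply div_le_div_of_nonneg_right _ he.le
          linarith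
      _ ≤ δ * l := by
          apply mul_le_mul_of_nonneg_right _ hl0.le
          rw [div_le_iff₀ he]
          linarith
  have hcle : c ≤ δ := by nlinarith
  have hmain := h T hTT0 K (by
      refine le_trans (Real.rpow_le_rpow_of_exponent_le hT1 ?_) hK1
      linarith) hK2 P (PP_prime _) (fun _ => e) (fun _ _ => ⟨he, he1⟩) hlen z hz
  rw [← ha, prod_const] at hmain
  have hnum : K * T ^ (-η) ≤ K * l / 20 * (e / (25 * (1 + a))) ^ P.card := by
    have h1 : T ^ (-η) ≤ (e / (25 * (1 + a))) ^ P.card := by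
      have h2 : (e / (50 * ll)) ^ P.card ≤ (e / (25 * (1 + a))) ^ P.card := by
        apply pow_le_pow_left₀ (by positivity)
        exact div_le_div_of_nonneg_left he.le (by positivity) (by linarith)
      refine le_trans ?_ h2
      have h3 : (e / (50 * ll)) = (50 / e * ll)⁻¹ := by field_simp
      rw [h3, inv_pow, Real.rpow_neg hTpos.le]
      apply inv_anti₀ (by positivity)
      have h5 : (1 : ℝ) ≤ 50 / e * ll := by
        have : (50 : ℝ) ≤ 50 / e := by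
          rw [le_div_iff₀ he]
          linarith
        nlinarith
      calc (50 / e * ll) ^ P.card = Real.exp (P.card * Real.log (50 / e * ll)) := by
            rw [Real.exp_nat_mul, Real.exp_log (by linarith)]
        _ ≤ Real.exp (l * η) := by
            apply Real.exp_le_exp.2
            calc (P.card : ℝ) * Real.log (50 / e * ll) ≤ y * (η * ll) :=
                  mul_le_mul hPy g4 (Real.log_nonneg h5) hy0
              _ = c * (l * η) := by rw [hy]; field_simp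
              _ ≤ 1 * (l * η) := mul_le_mul_of_nonneg_right hc1 (by positivity)
              _ = l * η := one_mul _
        _ = T ^ η := by rw [Real.rpow_def_of_pos hTpos]
    calc K * T ^ (-η) ≤ K * (e / (25 * (1 + a))) ^ P.card :=
          mul_le_mul_of_nonneg_left h1 hK0
      _ = K * (1 : ℝ) * (e / (25 * (1 + a))) ^ P.card := by ring
      _ ≤ K * (l / 20) * (e / (25 * (1 + a))) ^ P.card := by
          apply mul_le_mul_of_nonneg_right _ (by positivity)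
          apply mul_le_mul_of_nonneg_left _ hK0
          linarith
      _ = _ := by ring
  refine hnum.trans (hmain.trans ?_)
  have hsub : {t ∈ simpleZeros T (T + K) | ∀ p ∈ P, ‖(p : ℂ) ^ (I * t) - z p‖ < e} ⊆
      {t ∈ simpleZeros T (T + K) | ∀ p : ℕ, p.Prime →
        (p : ℝ) ≤ y → ‖(p : ℂ) ^ (I * t) - z p‖ < ε₀} := by
    rintro t ⟨ht1, ht2⟩
    rw [hP] at ht2
    have h3 := (PP_set (A := fun p => ‖(p : ℂ) ^ (I * t) - z p‖ < e)).1 ht2
    exact ⟨ht1, fun p hp hpy => (h3 p hp hpy).trans_le hee⟩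
  have hfin : {t ∈ simpleZeros T (T + K) | ∀ p : ℕ, p.Prime →
      (p : ℝ) ≤ y → ‖(p : ℂ) ^ (I * t) - z p‖ < ε₀}.Finite :=
    (simpleZeros_finite T (T + K) hT1).subset fun t ht => ht.1
  exact_mod_cast Set.ncard_le_ncard hsub hfin


/-- **upper bound for all zeros** -/
theorem upper (hfinA : ∀ T₁ T₂ : ℝ, 1 ≤ T₁ → (allZeros T₁ T₂).Finite) :
    ∃ c T₀ : ℝ, 0 < c ∧ 1 ≤ T₀ ∧ ∀ T : ℝ, T₀ ≤ T →
    ∀ K : ℝ, T ^ (1 - c) ≤ K → K ≤ T / 2 →
    ∀ P : Finset ℕ, (∀ p ∈ P, p.Prime) → ∀ e : ℕ → ℝ, (∀ p ∈ P, 0 < e p ∧ e p ≤ 1) →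
    ∑ p ∈ P, Real.log p / e p ≤ c * Real.log T →
    ∀ z : ℕ → ℂ, (∀ p, ‖z p‖ = 1) →
    ∑ᶠ s ∈ {s ∈ allZeros T (T + K) | ∀ p ∈ P, ‖(p : ℂ) ^ (I * s.im) - z p‖ ≤ e p},
      (mult s : ℝ) ≤ K * Real.log T * ∏ p ∈ P, (8 * e p) := by
  classical
  obtain ⟨δ, T₀, hδ, hT₀1, h⟩ := weights
  refine ⟨δ, T₀, hδ, hT₀1, ?_⟩
  intro T hT K hK1 hK2 P hP e he hlen0 z hz
  have hT1 : 1 ≤ T := hT₀1.trans hT
  have hTpos : 0 < T := by linarith
  have hl0 : 0 ≤ Real.log T := Real.log_nonneg hT1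
  have hK0 : 0 ≤ K := le_trans (by positivity) hK1
  set J : ℕ → ℕ := fun p => ⌊1 / e p⌋₊ with hJ
  have hJ0 : ∀ p ∈ P, 1 ≤ J p ∧ ((J p - 1 : ℕ) : ℝ) ≤ 1 / e p ∧ e p * J p ≤ 1 ∧
      1 ≤ 2 * (e p * J p) := by
    intro p hp
    obtain ⟨he0, he1⟩ := he p hp
    have h1e : 1 ≤ 1 / e p := by
      rw [le_div_iff₀ he0]
      linarith
    have hJ1 : (J p : ℝ) ≤ 1 / e p := Nat.floor_le (by positivity)
    have hJ2 : 1 / e p < J p + 1 := Nat.lt_floor_add_one _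
    have hJpos : 1 ≤ J p := Nat.le_floor (by push_cast; exact h1e)
    have hJr : (1 : ℝ) ≤ J p := by exact_mod_cast hJpos
    refine ⟨hJpos, ?_, ?_, ?_⟩
    · rw [Nat.cast_sub hJpos]
      push_cast
      linarith
    · rw [le_div_iff₀ he0] at hJ1
      linarith
    · rw [div_lt_iff₀ he0] at hJ2
      nlinarith
  have hlen : ∏ p ∈ P, (p : ℝ) ^ (1 * (J p - 1)) ≤ T ^ δ := by
    rw [len_exp P hP (fun p => 1 * (J p - 1)), Real.rpow_def_of_pos hTpos]
    apply Real.exp_le_exp.2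
    refine le_trans (sum_le_sum fun p hp => ?_) (hlen0.trans (le_of_eq (mul_comm _ _)))
    rw [one_mul]
    calc ((J p - 1 : ℕ) : ℝ) * Real.log p ≤ 1 / e p * Real.log p :=
          mul_le_mul_of_nonneg_right (hJ0 p hp).2.1 (Real.log_natCast_nonneg _)
      _ = _ := by ring
  obtain ⟨-, h2⟩ := h T hT K hK1 hK2 P hP J (fun _ => 1) hlen z hz
  simp only [pow_one] at h2
  have hnn1 : ∏ p ∈ P, nn (J p) 1 = ∏ p ∈ P, (J p : ℝ) :=
    prod_congr rfl fun p hp => nn_one _ (hJ0 p hp).1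
  rw [hnn1] at h2
  set A : Set ℂ := {s ∈ allZeros T (T + K) | ∀ p ∈ P, ‖(p : ℂ) ^ (I * s.im) - z p‖ ≤ e p} with hA
  have hAfin : A.Finite := (hfinA T (T + K) hT1).subset fun s hs => hs.1
  set G : ℝ := ∏ p ∈ P, ((J p : ℝ) / 2) ^ 2 with hG
  have hGpos : 0 < G := prod_pos fun p hp => by
    have h1 : (0 : ℝ) < J p := by exact_mod_cast (hJ0 p hp).1
    positivity
  have h3 : G * ∑ᶠ s ∈ A, (mult s : ℝ) ≤
      ∑ᶠ s ∈ allZeros T (T + K), (mult s : ℝ) * ∏ p ∈ P, V J z p s.im := by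
    rw [finsum_mem_eq_finite_toFinset_sum _ hAfin,
      finsum_mem_eq_finite_toFinset_sum _ (hfinA T (T + K) hT1), mul_sum]
    refine (sum_le_sum fun s hs => ?_).trans (sum_le_sum_of_subset_of_nonneg
      (Set.Finite.toFinset_subset_toFinset.2 fun s hs => hs.1) fun s _ _ =>
        mul_nonneg (Nat.cast_nonneg _) (prod_nonneg fun p _ => V_nonneg _ z p s.im))
    rw [Set.Finite.mem_toFinset] at hs
    rw [mul_comm]
    apply mul_le_mul_of_nonneg_left _ (Nat.cast_nonneg _)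
    refine prod_le_prod (fun p _ => by positivity) fun p hp => ?_
    exact V_near J z hz p (hP p hp).pos s.im (e p) (hJ0 p hp).1 (hJ0 p hp).2.2.1 (hs.2 p hp)
  have h5 : G * ∑ᶠ s ∈ A, (mult s : ℝ) ≤ K * Real.log T * ∏ p ∈ P, (J p : ℝ) := by
    refine (h3.trans h2).trans ?_
    have h6 : 1 / (2 * Real.pi) ≤ 1 / 2 := by
      apply one_div_le_one_div_of_le (by norm_num)
      linarith [Real.pi_gt_three]
    have h7 : 0 ≤ K * Real.log T * ∏ p ∈ P, (J p : ℝ) := by positivity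
    calc 101 / 100 * (K / (2 * Real.pi) * Real.log T * ∏ p ∈ P, (J p : ℝ)) =
          101 / 100 * (1 / (2 * Real.pi)) * (K * Real.log T * ∏ p ∈ P, (J p : ℝ)) := by ring
      _ ≤ 1 * (K * Real.log T * ∏ p ∈ P, (J p : ℝ)) := by
          apply mul_le_mul_of_nonneg_right _ h7
          linarith
      _ = _ := one_mul _
  have h8 : ∏ p ∈ P, (J p : ℝ) ≤ G * ∏ p ∈ P, (8 * e p) := by
    rw [hG, ← prod_mul_distrib]
    refine prod_le_prod (fun p _ => Nat.cast_nonneg _) fun p hp => ?_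
    have h9 := (hJ0 p hp).2.2.2
    have h10 : (0 : ℝ) ≤ J p := Nat.cast_nonneg _
    nlinarith
  refine le_of_mul_le_mul_left ?_ hGpos
  calc _ ≤ _ := h5
    _ ≤ K * Real.log T * (G * ∏ p ∈ P, (8 * e p)) :=
      mul_le_mul_of_nonneg_left h8 (by positivity)
    _ = _ := by ring

end Pool.Agent.J4.H50.Kr


namespace Pool.Agent.J4.H50.Kr

open Finset Complex Filter Topology
open Pool.Agent.Results.MP_6bc78b_nt.SimpleZerosEveryWeight (simpleZeros allZeros mult R main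
  simpleZeros_finite)

lemma allZeros_finite (T₁ T₂ : ℝ) (h : 1 ≤ T₁) : (allZeros T₁ T₂).Finite := by
  rw [Pool.Agent.Results.MP_6bc78b_nt.SimpleZerosEveryWeight.zeros_eq h]
  exact Finset.finite_toSet _

/-- **the two bounds** -/
theorem two_sided : ∃ c T₀ : ℝ, 0 < c ∧ 1 ≤ T₀ ∧ ∀ T : ℝ, T₀ ≤ T →
    ∀ K : ℝ, T ^ (1 - c) ≤ K → K ≤ T / 2 →
    ∀ P : Finset ℕ, (∀ p ∈ P, p.Prime) → ∀ e : ℕ → ℝ, (∀ p ∈ P, 0 < e p ∧ e p ≤ 1) →
    (1 + Real.log P.card) * ∑ p ∈ P, Real.log p / e p ≤ c * Real.log T →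
    ∀ z : ℕ → ℂ, (∀ p, ‖z p‖ = 1) →
    K * Real.log T / 20 * ∏ p ∈ P, (e p / (25 * (1 + Real.log P.card))) ≤
      ({t ∈ simpleZeros T (T + K) | ∀ p ∈ P, ‖(p : ℂ) ^ (I * t) - z p‖ < e p}.ncard : ℝ) ∧
    ∑ᶠ s ∈ {s ∈ allZeros T (T + K) | ∀ p ∈ P, ‖(p : ℂ) ^ (I * s.im) - z p‖ ≤ e p},
      (mult s : ℝ) ≤ K * Real.log T * ∏ p ∈ P, (8 * e p) := by
  obtain ⟨c₁, T₁, hc₁, hT₁, h₁⟩ := lower
  obtain ⟨c₂, T₂, hc₂, -, h₂⟩ := upper allZeros_finite
  refine ⟨min c₁ c₂, max T₁ T₂, lt_min hc₁ hc₂, hT₁.trans (le_max_left _ _), ?_⟩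
  intro T hT K hK1 hK2 P hP e he hlen z hz
  have hT1 : 1 ≤ T := (hT₁.trans (le_max_left _ _)).trans hT
  have hl0 : 0 ≤ Real.log T := Real.log_nonneg hT1
  have hs0 : 0 ≤ ∑ p ∈ P, Real.log (p : ℝ) / e p :=
    sum_nonneg fun p hp => div_nonneg (Real.log_natCast_nonneg _) (he p hp).1.le
  have ha0 : 0 ≤ Real.log (P.card : ℝ) := Real.log_natCast_nonneg _
  constructor
  · refine h₁ T ((le_max_left _ _).trans hT) K (le_trans ?_ hK1) hK2 P hP e he
      (hlen.trans (mul_le_mul_of_nonneg_right (min_le_left _ _) hl0)) z hz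
    exact Real.rpow_le_rpow_of_exponent_le hT1 (by linarith [min_le_left c₁ c₂])
  · refine h₂ T ((le_max_right _ _).trans hT) K (le_trans ?_ hK1) hK2 P hP e he
      (le_trans ?_ (hlen.trans (mul_le_mul_of_nonneg_right (min_le_right _ _) hl0))) z hz
    · exact Real.rpow_le_rpow_of_exponent_le hT1 (by linarith [min_le_right c₁ c₂])
    · nlinarith

end Pool.Agent.J4.H50.Kr
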